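import Pool.Agent.N988.EA.Stm2
import Pool.Agent.N91.EA_MNCF

/-!
Project EA (helper988), part UN: uniqueness of the Gibbs state, deterministic.
-/

set_option autoImplicit false

open Filter
open scoped Topology

namespace Pool.Agent.N46.EA

open Pool.Agent.N988.EA

/-- a function of the end spins -/
noncomputable def fn (c a b e : ℝ) (τ : Bool → Bool) : ℝ :=
  c + a * sg (τ false) + b * sg (τ true) + e * sg (τ false) * sg (τ true)

/-- the expectation of a function of the end spins -/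
noncomputable def W {b : ℕ} (γ : (n : ℕ) → (Pt b n → Bool) → ℝ) (n : ℕ)
    (f : (Bool → Bool) → ℝ) : ℝ :=
  ∑ s : Pt b n → Bool, γ n s * f (fun t => s (.inl t))

theorem sum_elim {b n : ℕ} (g : (Pt b n → Bool) → ℝ) :
    ∑ s : Pt b n → Bool, g s = ∑ τ : Bool → Bool, ∑ σ : Vert b n → Bool, g (Sum.elim τ σ) := by
  rw [← Fintype.sum_prod_type']
  exact Fintype.sum_equiv (Equiv.sumArrowEquivProdArrow Bool (Vert b n) Bool) _ _ (fun s => by
    congr 1
    funext x
    rcases x with x | x <;> rfl)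

theorem Z_pos {b n : ℕ} (J : Edge b n → ℝ) (τ : Bool → Bool) : 0 < Z J τ := by
  unfold Z
  exact Finset.sum_pos (fun σ _ => Real.exp_pos _) ⟨fun _ => true, Finset.mem_univ _⟩

theorem W_eq {b : ℕ} (γ : (n : ℕ) → (Pt b n → Bool) → ℝ) (n : ℕ) (f : (Bool → Bool) → ℝ) :
    W γ n f = ∑ τ : Bool → Bool, (∑ σ : Vert b n → Bool, γ n (Sum.elim τ σ)) * f τ := by
  unfold W
  rw [sum_elim]
  refine Finset.sum_congr rfl fun τ _ => ?_
  rw [Finset.sum_mul]
  refine Finset.sum_congr rfl fun σ _ => ?_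
  simp only [Sum.elim_inl]

/-- the expectation given the ends of the next cell -/
theorem W_succ {b : ℕ} {p : ℕ → Fin b × Bool} {J : EdgeInf b p → ℝ}
    {γ : (n : ℕ) → (Pt b n → Bool) → ℝ} (h : IsGibbs p J γ) (n : ℕ) (f g : (Bool → Bool) → ℝ)
    (A B : (Bool → Bool) → ℝ)
    (hf : ∀ (τ : Bool → Bool) (s : Bool), f (fun t => if t = (p n).2 then τ t else s) =
      A τ + B τ * sg s)
    (hg : ∀ τ, g τ = A τ + B τ * mag (cpl p J (n + 1)) τ (Sum.inl (p n).1 : Vert b (n + 1))) :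
    W γ n f = W γ (n + 1) g := by
  have e1 : W γ n f = ∑ s' : Pt b (n + 1) → Bool,
      γ (n + 1) s' * f (fun t => s' (emb (p n).1 (p n).2 (.inl t))) := by
    unfold W
    have : ∀ s : Pt b n → Bool, γ n s * f (fun t => s (.inl t)) =
        ∑ s' : Pt b (n + 1) → Bool, if s' ∘ emb (p n).1 (p n).2 = s then
          γ (n + 1) s' * f (fun t => s' (emb (p n).1 (p n).2 (.inl t))) else 0 := by
      intro s
      rw [h.consistent n s, Finset.sum_mul]
      refine Finset.sum_congr rfl fun s' _ => ?_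
      split_ifs with hs
      · rw [← hs]
        rfl
      · rw [zero_mul]
    rw [Finset.sum_congr rfl fun s _ => this s, Finset.sum_comm]
    refine Finset.sum_congr rfl fun s' _ => ?_
    rw [Finset.sum_ite_eq]
    simp
  rw [e1, sum_elim, W_eq]
  refine Finset.sum_congr rfl fun τ _ => ?_
  set w := ∑ σ : Vert b (n + 1) → Bool, γ (n + 1) (Sum.elim τ σ) with hw
  have hZ := Z_pos (cpl p J (n + 1)) τ
  have e2 : ∀ σ : Vert b (n + 1) → Bool,
      γ (n + 1) (Sum.elim τ σ) *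
        f (fun t => (Sum.elim τ σ : Pt b (n + 1) → Bool) (emb (p n).1 (p n).2 (.inl t))) =
      w * ((Real.exp (act (cpl p J (n + 1)) τ σ) / Z (cpl p J (n + 1)) τ) *
        (A τ + B τ * sg (σ (Sum.inl (p n).1)))) := by
    intro σ
    have e3 : (fun t => (Sum.elim τ σ : Pt b (n + 1) → Bool) (emb (p n).1 (p n).2 (.inl t))) =
        fun t => if t = (p n).2 then τ t else σ (Sum.inl (p n).1) := by
      funext t
      show (Sum.elim τ σ : Pt b (n + 1) → Bool)
        (if t = (p n).2 then Sum.inl (p n).2 else Sum.inr (Sum.inl (p n).1)) = _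
      split_ifs with ht
      · rw [ht]; rfl
      · rfl
    rw [e3, hf, h.dlr (n + 1) τ σ, ← hw]
    ring
  rw [Finset.sum_congr rfl fun σ _ => e2 σ, ← Finset.mul_sum]
  congr 1
  rw [hg]
  unfold mag
  have e4 : ∑ σ : Vert b (n + 1) → Bool,
      (Real.exp (act (cpl p J (n + 1)) τ σ) / Z (cpl p J (n + 1)) τ) *
        (A τ + B τ * sg (σ (Sum.inl (p n).1))) =
      A τ * ((∑ σ : Vert b (n + 1) → Bool, Real.exp (act (cpl p J (n + 1)) τ σ)) /
        Z (cpl p J (n + 1)) τ) +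
      B τ * ((∑ σ : Vert b (n + 1) → Bool, sg (σ (Sum.inl (p n).1)) *
        Real.exp (act (cpl p J (n + 1)) τ σ)) / Z (cpl p J (n + 1)) τ) := by
    rw [Finset.sum_div, Finset.sum_div, Finset.mul_sum, Finset.mul_sum, ← Finset.sum_add_distrib]
    refine Finset.sum_congr rfl fun σ _ => ?_
    ring
  rw [e4]
  have e5 : (∑ σ : Vert b (n + 1) → Bool, Real.exp (act (cpl p J (n + 1)) τ σ)) /
      Z (cpl p J (n + 1)) τ = 1 := div_self hZ.ne'
  rw [e5, mul_one]

/-- one step -/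
theorem step (hG : S_G) {b : ℕ} (p : ℕ → Fin b × Bool) (J : EdgeInf b p → ℝ) (n : ℕ) (r : ℝ)
    (hr : |Real.tanh (K n fun e => cpl p J (n + 1) ((p n).1, false, e))| +
      |Real.tanh (K n fun e => cpl p J (n + 1) ((p n).1, true, e))| ≤ r)
    (c a d e : ℝ) : ∃ c' a' d' e' : ℝ,
      (∀ γ, IsGibbs p J γ → W γ n (fn c a d e) = W γ (n + 1) (fn c' a' d' e')) ∧
      ((p n).2 = false → |a'| ≤ |a| + r * |d| ∧ |d'| + |e'| ≤ r * (|d| + |e|)) ∧
      ((p n).2 = true → |d'| ≤ |d| + r * |a| ∧ |a'| + |e'| ≤ r * (|a| + |e|)) := by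
  obtain ⟨α, β, h1, h2, -, -⟩ := (Pool.Agent.N91.EA.t_CF hG b).2 n (cpl p J (n + 1)) (p n).1
  have hαβ : |α| + |β| ≤ r := h1.trans hr
  have hα : |α| ≤ r := by linarith [abs_nonneg β]
  have hβ : |β| ≤ r := by linarith [abs_nonneg α]
  have sq : ∀ s : Bool, sg s * sg s = 1 := by intro s; cases s <;> norm_num [sg]
  rcases hb : (p n).2 with _ | _
  · -- left half
    refine ⟨c + e * α, a + d * α, d * β, e * β, ?_, ?_, ?_⟩
    · intro γ hγ
      refine W_succ hγ n _ _ (fun τ => c + a * sg (τ false)) (fun τ => d + e * sg (τ false))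
        ?_ ?_
      · intro τ s
        simp only [fn, hb, if_true, reduceCtorEq, if_false]
        ring
      · intro τ
        rw [h2]
        simp only [fn]
        linear_combination (-(e * α)) * sq (τ false)
    · intro _
      refine ⟨?_, ?_⟩
      · calc |a + d * α| ≤ |a| + |d * α| := abs_add_le _ _
          _ = |a| + |α| * |d| := by rw [abs_mul]; ring
          _ ≤ |a| + r * |d| := by gcongr
      · rw [abs_mul, abs_mul]
        calc |d| * |β| + |e| * |β| = |β| * (|d| + |e|) := by ring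
          _ ≤ r * (|d| + |e|) := by gcongr
    · intro h; exact absurd h (by simp)
  · -- right half
    refine ⟨c + e * β, a * α, a * β + d, e * α, ?_, ?_, ?_⟩
    · intro γ hγ
      refine W_succ hγ n _ _ (fun τ => c + d * sg (τ true)) (fun τ => a + e * sg (τ true))
        ?_ ?_
      · intro τ s
        simp only [fn, hb, if_true, reduceCtorEq, if_false]
        ring
      · intro τ
        rw [h2]
        simp only [fn]
        linear_combination (-(e * β)) * sq (τ true)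
    · intro h; exact absurd h (by simp)
    · intro _
      refine ⟨?_, ?_⟩
      · calc |a * β + d| ≤ |a * β| + |d| := abs_add_le _ _
          _ = |d| + |β| * |a| := by rw [abs_mul]; ring
          _ ≤ |d| + r * |a| := by gcongr
      · rw [abs_mul, abs_mul]
        calc |a| * |α| + |e| * |α| = |α| * (|a| + |e|) := by ring
          _ ≤ r * (|a| + |e|) := by gcongr

/-- bounded multiples: the norm does not increase -/
theorem run0 (hG : S_G) {b : ℕ} (p : ℕ → Fin b × Bool) (J : EdgeInf b p → ℝ) (k : ℕ) (ε : ℝ)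
    (_hε : 0 ≤ ε) (hε2 : ε ≤ 1 / 2)
    (hr : ∀ n, k ≤ n → |Real.tanh (K n fun e => cpl p J (n + 1) ((p n).1, false, e))| +
      |Real.tanh (K n fun e => cpl p J (n + 1) ((p n).1, true, e))| ≤ ε)
    (c a d e N : ℝ) (hN : |a| + |d| + |e| ≤ N) (m : ℕ) : ∃ c' a' d' e' : ℝ,
      (∀ γ, IsGibbs p J γ → W γ k (fn c a d e) = W γ (k + m) (fn c' a' d' e')) ∧
      |a'| + |d'| + |e'| ≤ N := by
  induction m with
  | zero => exact ⟨c, a, d, e, fun γ _ => rfl, hN⟩
  | succ m ih =>
    obtain ⟨c1, a1, d1, e1, h1, h2⟩ := ih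
    obtain ⟨c2, a2, d2, e2, h3, h4, h5⟩ := step hG p J (k + m) ε (hr _ (by omega)) c1 a1 d1 e1
    refine ⟨c2, a2, d2, e2, fun γ hγ => (h1 γ hγ).trans (h3 γ hγ), ?_⟩
    have n1 := abs_nonneg a1
    have n2 := abs_nonneg d1
    have n3 := abs_nonneg e1
    rcases hb : (p (k + m)).2 with _ | _
    · obtain ⟨h6, h7⟩ := h4 hb
      nlinarith
    · obtain ⟨h6, h7⟩ := h5 hb
      nlinarith

/-- after a left half -/
theorem run1 (hG : S_G) {b : ℕ} (p : ℕ → Fin b × Bool) (J : EdgeInf b p → ℝ) (k : ℕ) (ε : ℝ)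
    (hε : 0 ≤ ε) (hε2 : ε ≤ 1 / 2)
    (hr : ∀ n, k ≤ n → |Real.tanh (K n fun e => cpl p J (n + 1) ((p n).1, false, e))| +
      |Real.tanh (K n fun e => cpl p J (n + 1) ((p n).1, true, e))| ≤ ε)
    (c a d e N : ℝ) (hN : |a| + |d| + |e| ≤ N) (hde : |d| + |e| ≤ ε * N) (m : ℕ) :
    ∃ c' a' d' e' : ℝ,
      (∀ γ, IsGibbs p J γ → W γ k (fn c a d e) = W γ (k + m) (fn c' a' d' e')) ∧
      |a'| + |d'| + |e'| ≤ N ∧ (|a'| + |d'| + |e'| ≤ 3 * (ε * N) ∨ (|d'| + |e'| ≤ ε * N ∧
        ∀ n, k ≤ n → n < k + m → (p n).2 = false)) := by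
  have hN0 : 0 ≤ N := by
    have n1 := abs_nonneg a
    have n2 := abs_nonneg d
    have n3 := abs_nonneg e
    linarith
  induction m with
  | zero => exact ⟨c, a, d, e, fun γ _ => rfl, hN, Or.inr ⟨hde, fun n h1 h2 => by omega⟩⟩
  | succ m ih =>
    obtain ⟨c1, a1, d1, e1, h1, h2, h2'⟩ := ih
    obtain ⟨c2, a2, d2, e2, h3, h4, h5⟩ := step hG p J (k + m) ε (hr _ (by omega)) c1 a1 d1 e1
    have n1 := abs_nonneg a1
    have n2 := abs_nonneg d1
    have n3 := abs_nonneg e1
    have hεN : 0 ≤ ε * N := mul_nonneg hε hN0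
    have q1 : ε * |a1| ≤ 1 / 2 * |a1| := by gcongr
    have q2 : ε * |d1| ≤ 1 / 2 * |d1| := by gcongr
    have q3 : ε * |e1| ≤ 1 / 2 * |e1| := by gcongr
    have q4 : ε * |a1| ≤ ε * N := by
      gcongr
      linarith
    refine ⟨c2, a2, d2, e2, fun γ hγ => (h1 γ hγ).trans (h3 γ hγ), ?_, ?_⟩
    · rcases hb : (p (k + m)).2 with _ | _
      · obtain ⟨h6, h7⟩ := h4 hb
        linarith
      · obtain ⟨h6, h7⟩ := h5 hb
        linarith
    · rcases hb : (p (k + m)).2 with _ | _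
      · obtain ⟨h6, h7⟩ := h4 hb
        rcases h2' with h8 | ⟨h8, h9⟩
        · left
          linarith
        · right
          refine ⟨by linarith, fun n hn1 hn2 => ?_⟩
          rcases Nat.lt_or_ge n (k + m) with h10 | h10
          · exact h9 n hn1 h10
          · have : n = k + m := by omega
            rw [this, hb]
      · obtain ⟨h6, h7⟩ := h5 hb
        left
        rcases h2' with h8 | ⟨h8, h9⟩
        · linarith
        · have q5 : ε * (|a1| + |e1|) ≤ ε * N := by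
            gcongr
            linarith
          linarith

theorem W_lin {b : ℕ} {p : ℕ → Fin b × Bool} {J : EdgeInf b p → ℝ}
    {γ : (n : ℕ) → (Pt b n → Bool) → ℝ} (h : IsGibbs p J γ) (n : ℕ) (c a d e : ℝ) :
    |W γ n (fn c a d e) - c| ≤ |a| + |d| + |e| := by
  have hs : ∀ s : Bool, |sg s| = 1 := by intro s; cases s <;> norm_num [sg]
  have e1 : W γ n (fn c a d e) - c =
      ∑ s : Pt b n → Bool, γ n s * (fn c a d e (fun t => s (.inl t)) - c) := by
    unfold W
    simp only [mul_sub]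
    rw [Finset.sum_sub_distrib, ← Finset.sum_mul, h.total n, one_mul]
  rw [e1]
  calc |∑ s : Pt b n → Bool, γ n s * (fn c a d e (fun t => s (.inl t)) - c)|
      ≤ ∑ s : Pt b n → Bool, |γ n s * (fn c a d e (fun t => s (.inl t)) - c)| :=
        Finset.abs_sum_le_sum_abs _ _
    _ ≤ ∑ s : Pt b n → Bool, γ n s * (|a| + |d| + |e|) := by
        refine Finset.sum_le_sum fun s _ => ?_
        rw [abs_mul, abs_of_nonneg (h.nonneg n s)]
        refine mul_le_mul_of_nonneg_left ?_ (h.nonneg n s)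
        have e2 : fn c a d e (fun t => s (.inl t)) - c = a * sg (s (.inl false)) +
            d * sg (s (.inl true)) + e * sg (s (.inl false)) * sg (s (.inl true)) := by
          simp only [fn]; ring
        rw [e2]
        calc |a * sg (s (.inl false)) + d * sg (s (.inl true)) +
              e * sg (s (.inl false)) * sg (s (.inl true))|
            ≤ |a * sg (s (.inl false))| + |d * sg (s (.inl true))| +
              |e * sg (s (.inl false)) * sg (s (.inl true))| := abs_add_three _ _ _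
          _ = |a| + |d| + |e| := by
              simp only [abs_mul, hs, mul_one]
    _ = |a| + |d| + |e| := by rw [← Finset.sum_mul, h.total n, one_mul]

theorem ends_eq (hG : S_G) {b : ℕ} (p : ℕ → Fin b × Bool) (J : EdgeInf b p → ℝ)
    (hp : ∀ (s : Bool) (k : ℕ), ∃ n, k ≤ n ∧ (p n).2 = s)
    (hT : Tendsto (fun n => |Real.tanh (K n fun e => cpl p J (n + 1) ((p n).1, false, e))| +
      |Real.tanh (K n fun e => cpl p J (n + 1) ((p n).1, true, e))|) atTop (𝓝 0))
    {γ γ' : (n : ℕ) → (Pt b n → Bool) → ℝ} (h : IsGibbs p J γ) (h' : IsGibbs p J γ') (n : ℕ)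
    (c a d e : ℝ) : W γ n (fn c a d e) = W γ' n (fn c a d e) := by
  -- crude steps
  have run : ∀ m : ℕ, ∃ c' a' d' e' : ℝ,
      ∀ γ, IsGibbs p J γ → W γ n (fn c a d e) = W γ (n + m) (fn c' a' d' e') := by
    intro m
    induction m with
    | zero => exact ⟨c, a, d, e, fun γ _ => rfl⟩
    | succ m ih =>
      obtain ⟨c1, a1, d1, e1, h1⟩ := ih
      obtain ⟨c2, a2, d2, e2, h3, -, -⟩ := step hG p J (n + m) _ le_rfl c1 a1 d1 e1
      exact ⟨c2, a2, d2, e2, fun γ hγ => (h1 γ hγ).trans (h3 γ hγ)⟩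
  obtain ⟨k0, hk0⟩ := Filter.eventually_atTop.1 (hT.eventually_le_const (u := 1 / 2) (by norm_num))
  obtain ⟨c0, a0, d0, e0, hr0⟩ := run k0
  set N := |a0| + |d0| + |e0| with hN
  have hN0 : 0 ≤ N := by positivity
  rw [hr0 γ h, hr0 γ' h']
  -- difference
  by_contra hne
  have hpos : 0 < |W γ (n + k0) (fn c0 a0 d0 e0) - W γ' (n + k0) (fn c0 a0 d0 e0)| :=
    abs_pos.2 (sub_ne_zero.2 hne)
  set D := |W γ (n + k0) (fn c0 a0 d0 e0) - W γ' (n + k0) (fn c0 a0 d0 e0)| with hD
  obtain ⟨ε, hε, hε2, hε3⟩ : ∃ ε : ℝ, 0 < ε ∧ ε ≤ 1 / 2 ∧ 6 * (ε * N) < D := by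
    refine ⟨min (1 / 2) (D / (12 * (N + 1))), by positivity, min_le_left _ _, ?_⟩
    have h1 : min (1 / 2) (D / (12 * (N + 1))) ≤ D / (12 * (N + 1)) := min_le_right _ _
    calc 6 * (min (1 / 2) (D / (12 * (N + 1))) * N) ≤ 6 * (D / (12 * (N + 1)) * N) := by gcongr
      _ = D * (N / (2 * (N + 1))) := by field_simp; ring
      _ < D * 1 := by
        gcongr
        rw [div_lt_one (by positivity)]
        linarith
      _ = D := mul_one D
  obtain ⟨k1, hk1⟩ := Filter.eventually_atTop.1 (hT.eventually_le_const hε)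
  -- go to level n + k0 + k1
  obtain ⟨c1, a1, d1, e1, hr1, hn1⟩ := run0 hG p J (n + k0) (1 / 2) (by norm_num) le_rfl
    (fun j hj => hk0 j (by omega)) c0 a0 d0 e0 N le_rfl k1
  -- go to a left half
  obtain ⟨j1, hj1, hp1⟩ := hp false (n + k0 + k1)
  obtain ⟨m1, rfl⟩ := Nat.exists_eq_add_of_le hj1
  have hrε : ∀ j, n + k0 + k1 ≤ j →
      |Real.tanh (K j fun e => cpl p J (j + 1) ((p j).1, false, e))| +
      |Real.tanh (K j fun e => cpl p J (j + 1) ((p j).1, true, e))| ≤ ε :=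
    fun j hj => hk1 j (by omega)
  obtain ⟨c2, a2, d2, e2, hr2, hn2⟩ := run0 hG p J (n + k0 + k1) ε hε.le hε2 hrε
    c1 a1 d1 e1 N hn1 m1
  obtain ⟨c3, a3, d3, e3, hr3, h33, -⟩ := step hG p J (n + k0 + k1 + m1) ε
    (hrε _ (by omega)) c2 a2 d2 e2
  obtain ⟨h34, h35⟩ := h33 hp1
  have n1 := abs_nonneg a2
  have n2 := abs_nonneg d2
  have n3 := abs_nonneg e2
  have hn3 : |d3| + |e3| ≤ ε * N := h35.trans (by gcongr; linarith)
  have hn3' : |a3| + |d3| + |e3| ≤ N := by
    have q2 : ε * |d2| ≤ 1 / 2 * |d2| := by gcongr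
    have q3 : ε * |e2| ≤ 1 / 2 * |e2| := by gcongr
    linarith
  -- go to a right half
  obtain ⟨j2, hj2, hp2⟩ := hp true (n + k0 + k1 + m1 + 1)
  obtain ⟨m2, rfl⟩ := Nat.exists_eq_add_of_le hj2
  obtain ⟨c4, a4, d4, e4, hr4, hn4, hn4'⟩ := run1 hG p J (n + k0 + k1 + m1 + 1) ε hε.le hε2
    (fun j hj => hrε j (by omega)) c3 a3 d3 e3 N hn3' hn3 (m2 + 1)
  have hn5 : |a4| + |d4| + |e4| ≤ 3 * (ε * N) := by
    rcases hn4' with h8 | ⟨-, h9⟩
    · exact h8
    · exfalso
      have := h9 (n + k0 + k1 + m1 + 1 + m2) (by omega) (by omega)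
      rw [hp2] at this
      exact absurd this (by simp)
  have key : ∀ γ, IsGibbs p J γ → |W γ (n + k0) (fn c0 a0 d0 e0) - c4| ≤ 3 * (ε * N) := by
    intro γ hγ
    rw [hr1 γ hγ, hr2 γ hγ, hr3 γ hγ, hr4 γ hγ]
    exact (W_lin hγ _ _ _ _ _).trans hn5
  have k1' := key γ h
  have k2' := key γ' h'
  have : D ≤ 6 * (ε * N) := by
    rw [hD]
    calc |W γ (n + k0) (fn c0 a0 d0 e0) - W γ' (n + k0) (fn c0 a0 d0 e0)|
        = |(W γ (n + k0) (fn c0 a0 d0 e0) - c4) - (W γ' (n + k0) (fn c0 a0 d0 e0) - c4)| := by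
          congr 1; ring
      _ ≤ |W γ (n + k0) (fn c0 a0 d0 e0) - c4| + |W γ' (n + k0) (fn c0 a0 d0 e0) - c4| :=
          abs_sub _ _
      _ ≤ 6 * (ε * N) := by linarith
  linarith

theorem t_UN (hG : S_G) : S_UN := by
  intro b p J hp hT γ γ' h h'
  funext n s
  -- the laws of the ends agree
  have key : ∀ τ : Bool → Bool, ∑ σ : Vert b n → Bool, γ n (Sum.elim τ σ) =
      ∑ σ : Vert b n → Bool, γ' n (Sum.elim τ σ) := by
    intro τ
    set f : (Bool → Bool) → ℝ := fn (1 / 4) (sg (τ false) / 4) (sg (τ true) / 4)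
      (sg (τ false) * sg (τ true) / 4) with hf
    have hfe : ∀ τ' : Bool → Bool, f τ' = if τ' = τ then 1 else 0 := by
      intro τ'
      have h1 : (τ' = τ) ↔ (τ' false = τ false ∧ τ' true = τ true) := by
        constructor
        · rintro rfl; exact ⟨rfl, rfl⟩
        · rintro ⟨h1, h2⟩
          funext t
          cases t
          · exact h1
          · exact h2
      simp only [h1, hf, fn]
      rcases τ false with _ | _ <;> rcases τ true with _ | _ <;>
        rcases τ' false with _ | _ <;> rcases τ' true with _ | _ <;> norm_num [sg]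
    have e1 : ∀ g : (n : ℕ) → (Pt b n → Bool) → ℝ, W g n f =
        ∑ σ : Vert b n → Bool, g n (Sum.elim τ σ) := by
      intro g
      rw [W_eq]
      simp only [hfe, mul_ite, mul_one, mul_zero]
      rw [Finset.sum_ite_eq' Finset.univ τ]
      simp
    rw [← e1 γ, ← e1 γ']
    exact ends_eq hG p J hp hT h h' n _ _ _ _
  have hs : s = Sum.elim (fun t => s (.inl t)) (fun x => s (.inr x)) := by
    funext x
    rcases x with x | x <;> rfl
  rw [hs, h.dlr, h'.dlr, key]

end Pool.Agent.N46.EA
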