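import Mathlib
import Pool.Agent.N979.CAP.Stm

/-! # CAP/EXT: extension of the boundary functions (by helper46) -/

set_option autoImplicit false

namespace Pool.Agent.N46.CAP_EXT

open Real

noncomputable def b (s₀ θ t : ℝ) : ℝ := arcsin (s₀ * cos (θ - t))

noncomputable def pv (s₀ t : ℝ) : EuclideanSpace ℝ (Fin 3) := !₂[s₀ * cos t, s₀ * sin t, √(1 - s₀ ^ 2)]

noncomputable def nv (θ : ℝ) : EuclideanSpace ℝ (Fin 3) := !₂[cos θ, sin θ, 0]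

lemma pv_inner (s₀ : ℝ) (h0 : 0 ≤ s₀) (h1 : s₀ ≤ 1) (s t : ℝ) :
    inner ℝ (pv s₀ s) (pv s₀ t) = 1 - 2 * (s₀ * |sin ((s - t) / 2)|) ^ 2 := by
  have h2 : √(1 - s₀ ^ 2) * √(1 - s₀ ^ 2) = 1 - s₀ ^ 2 := mul_self_sqrt (by nlinarith)
  have h3 : cos (s - t) = 1 - 2 * sin ((s - t) / 2) ^ 2 := by
    have h4 := cos_two_mul ((s - t) / 2)
    have h5 := sin_sq_add_cos_sq ((s - t) / 2)
    have h6 : 2 * ((s - t) / 2) = s - t := by ring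
    rw [h6] at h4
    linarith
  rw [mul_pow, sq_abs]
  have h6 : inner ℝ (pv s₀ s) (pv s₀ t) = s₀ ^ 2 * cos (s - t) + (1 - s₀ ^ 2) := by
    rw [cos_sub, ← h2]
    simp [pv, PiLp.inner_apply, Fin.sum_univ_three]
    ring
  rw [h6, h3]
  ring

lemma pv_norm (s₀ : ℝ) (h0 : 0 ≤ s₀) (h1 : s₀ ≤ 1) (s : ℝ) : ‖pv s₀ s‖ = 1 := by
  have h2 := pv_inner s₀ h0 h1 s s
  rw [real_inner_self_eq_norm_sq, sub_self, zero_div, sin_zero, abs_zero, mul_zero] at h2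
  have h3 := norm_nonneg (pv s₀ s)
  nlinarith

lemma nv_norm (θ : ℝ) : ‖nv θ‖ = 1 := by
  have h2 : inner ℝ (nv θ) (nv θ) = (1 : ℝ) := by
    rw [PiLp.inner_apply, Fin.sum_univ_three]
    simp [nv]
  rw [real_inner_self_eq_norm_sq] at h2
  have h3 := norm_nonneg (nv θ)
  nlinarith

lemma ang1 (s₀ : ℝ) (h0 : 0 ≤ s₀) (h1 : s₀ ≤ 1) (θ s : ℝ) :
    InnerProductGeometry.angle (nv θ) (pv s₀ s) = π / 2 - b s₀ θ s := by
  unfold InnerProductGeometry.angle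
  rw [pv_norm s₀ h0 h1, nv_norm, mul_one, div_one, arccos_eq_pi_div_two_sub_arcsin]
  congr 2
  simp [nv, pv, PiLp.inner_apply, Fin.sum_univ_three]
  rw [cos_sub]
  ring

lemma ang2 (s₀ : ℝ) (h0 : 0 ≤ s₀) (h1 : s₀ ≤ 1) (s t : ℝ) :
    InnerProductGeometry.angle (pv s₀ s) (pv s₀ t) = 2 * arcsin (s₀ * |sin ((s - t) / 2)|) := by
  unfold InnerProductGeometry.angle
  obtain ⟨w, hw⟩ : ∃ w, w = s₀ * |sin ((s - t) / 2)| := ⟨_, rfl⟩
  have hw0 : 0 ≤ w := by rw [hw]; positivity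
  have hw1 : w ≤ 1 := by
    rw [hw]
    exact mul_le_one₀ h1 (abs_nonneg _) (abs_sin_le_one _)
  rw [pv_norm s₀ h0 h1, pv_norm s₀ h0 h1, mul_one, div_one, pv_inner s₀ h0 h1, ← hw]
  have h2 : 1 - 2 * w ^ 2 = cos (2 * arcsin w) := by
    rw [cos_two_mul, cos_arcsin, sq_sqrt (by nlinarith)]
    ring
  rw [h2, arccos_cos]
  · have := arcsin_nonneg.2 hw0
    positivity
  · have := arcsin_le_pi_div_two w
    linarith

/-- the function `b` in `t` -/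
lemma b_t (s₀ : ℝ) (h0 : 0 ≤ s₀) (h1 : s₀ ≤ 1) (θ s t : ℝ) :
    b s₀ θ s ≤ b s₀ θ t + 2 * arcsin (s₀ * |sin ((s - t) / 2)|) := by
  have h2 := InnerProductGeometry.angle_le_angle_add_angle (nv θ) (pv s₀ s) (pv s₀ t)
  rw [ang1 s₀ h0 h1, ang1 s₀ h0 h1, ang2 s₀ h0 h1] at h2
  linarith

lemma arcsin_mul_le (s₀ y : ℝ) (h0 : 0 ≤ s₀) (h1 : s₀ ≤ 1) (hy0 : 0 ≤ y) (hy1 : y ≤ 1) :
    arcsin (s₀ * y) ≤ s₀ * arcsin y := by
  have ha0 := arcsin_nonneg.2 hy0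
  have ha1 := arcsin_le_pi_div_two y
  have h2 := strictConcaveOn_sin_Icc.concaveOn.2 (x := arcsin y) (y := 0)
    ⟨ha0, by linarith [pi_pos]⟩ ⟨le_rfl, pi_pos.le⟩ h0 (by linarith : 0 ≤ 1 - s₀) (by ring)
  simp only [smul_eq_mul, sin_zero, mul_zero, add_zero] at h2
  rw [sin_arcsin (by linarith) hy1] at h2
  have h3 : arcsin (s₀ * y) ≤ arcsin (sin (s₀ * arcsin y)) := monotone_arcsin h2
  rw [arcsin_sin (by nlinarith) (by nlinarith)] at h3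
  exact h3

lemma arcsin_abs_sin_le (x : ℝ) : arcsin |sin x| ≤ |x| := by
  have h1 : |sin x| ≤ sin |x| ∨ π / 2 < |x| := by
    rcases le_or_gt |x| (π / 2) with h | h
    · left
      rcases abs_cases x with ⟨h2, h3⟩ | ⟨h2, h3⟩
      · rw [h2, abs_of_nonneg (sin_nonneg_of_nonneg_of_le_pi h3 (by linarith [pi_pos]))]
      · rw [h2, sin_neg, abs_of_nonpos]
        exact sin_nonpos_of_nonpos_of_neg_pi_le h3.le (by linarith [pi_pos])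
    · exact Or.inr h
  rcases le_or_gt |x| (π / 2) with h | h
  · have h2 : |sin x| ≤ sin |x| := h1.resolve_right (not_lt.2 h)
    calc arcsin |sin x| ≤ arcsin (sin |x|) := monotone_arcsin h2
      _ = |x| := arcsin_sin (by linarith [abs_nonneg x, pi_pos]) h
  · exact (arcsin_le_pi_div_two _).trans h.le

lemma two_arcsin_le (s₀ : ℝ) (h0 : 0 ≤ s₀) (h1 : s₀ ≤ 1) (x : ℝ) :
    2 * arcsin (s₀ * |sin (x / 2)|) ≤ s₀ * |x| := by
  have h2 := arcsin_mul_le s₀ |sin (x / 2)| h0 h1 (abs_nonneg _) (abs_sin_le_one _)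
  have h3 := arcsin_abs_sin_le (x / 2)
  rw [abs_div, abs_of_pos (by norm_num : (0 : ℝ) < 2)] at h3
  nlinarith

lemma b_comm (s₀ θ t : ℝ) : b s₀ θ t = b s₀ t θ := by
  unfold b
  rw [← cos_neg, neg_sub]

lemma b_theta (s₀ : ℝ) (h0 : 0 ≤ s₀) (h1 : s₀ ≤ 1) (θ θ' t : ℝ) :
    b s₀ θ t ≤ b s₀ θ' t + s₀ * |θ - θ'| := by
  rw [b_comm s₀ θ, b_comm s₀ θ']
  exact (b_t s₀ h0 h1 t θ θ').trans (by linarith [two_arcsin_le s₀ h0 h1 (θ - θ')])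

lemma b_pi (s₀ θ t : ℝ) : b s₀ (θ + π) t = -b s₀ θ t := by
  unfold b
  rw [← arcsin_neg, show θ + π - t = (θ - t) + π by ring, cos_add_pi, mul_neg]

lemma b_le (s₀ : ℝ) (h0 : 0 ≤ s₀) (θ t : ℝ) : b s₀ θ t ≤ arcsin s₀ := by
  unfold b
  apply monotone_arcsin
  nlinarith [cos_le_one (θ - t)]

lemma le_b (s₀ : ℝ) (h0 : 0 ≤ s₀) (θ t : ℝ) : -arcsin s₀ ≤ b s₀ θ t := by
  unfold b
  rw [← arcsin_neg]
  apply monotone_arcsin
  nlinarith [neg_one_le_cos (θ - t)]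

lemma inf_le (F H : ℝ → ℝ) (c : ℝ) (hF : BddBelow (Set.range F)) (h : ∀ t, F t ≤ H t + c) :
    ⨅ t, F t ≤ (⨅ t, H t) + c := by
  have h1 : (⨅ t, F t) - c ≤ ⨅ t, H t := le_ciInf fun t => by linarith [ciInf_le hF t, h t]
  linarith

noncomputable def f {M : Type} [MetricSpace M] (β : ℝ → M) (s₀ θ : ℝ) (x : M) : ℝ :=
  ⨅ t : ℝ, (b s₀ θ t + dist x (β t))

section F
variable {M : Type} [MetricSpace M] (β : ℝ → M) (s₀ : ℝ) (h0 : 0 ≤ s₀) 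

include h0

lemma f_bdd (θ : ℝ) (x : M) : BddBelow (Set.range fun t : ℝ => b s₀ θ t + dist x (β t)) := by
  refine ⟨-arcsin s₀, ?_⟩
  rintro _ ⟨t, rfl⟩
  have := le_b s₀ h0 θ t
  have := dist_nonneg (x := x) (y := β t)
  show -arcsin s₀ ≤ b s₀ θ t + dist x (β t)
  linarith

lemma f_lip (θ : ℝ) (x y : M) : f β s₀ θ x ≤ f β s₀ θ y + dist x y := by
  apply inf_le _ _ _ (f_bdd β s₀ h0 θ x)
  intro t
  linarith [dist_triangle x y (β t)]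

lemma f_theta (h1 : s₀ ≤ 1) (θ θ' : ℝ) (x : M) :
    f β s₀ θ x ≤ f β s₀ θ' x + s₀ * |θ - θ'| := by
  apply inf_le _ _ _ (f_bdd β s₀ h0 θ x)
  intro t
  linarith [b_theta s₀ h0 h1 θ θ' t]

lemma f_pi (θ : ℝ) (x : M) : f β s₀ θ x ≤ f β s₀ (θ + π) x + 2 * arcsin s₀ := by
  apply inf_le _ _ _ (f_bdd β s₀ h0 θ x)
  intro t
  rw [b_pi]
  linarith [b_le s₀ h0 θ t]

lemma f_pi' (θ : ℝ) (x : M) : f β s₀ (θ + π) x ≤ f β s₀ θ x + 2 * arcsin s₀ := by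
  apply inf_le _ _ _ (f_bdd β s₀ h0 (θ + π) x)
  intro t
  rw [b_pi]
  linarith [le_b s₀ h0 θ t]

omit h0 in
lemma f_two (θ : ℝ) (x : M) : f β s₀ (θ + π + π) x = f β s₀ θ x := by
  unfold f
  congr 1
  funext t
  rw [b_pi, b_pi, neg_neg]

lemma f_bound (h1 : s₀ ≤ 1)
    (h : ∀ s t : ℝ, 2 * arcsin (s₀ * |sin ((s - t) / 2)|) ≤ dist (β s) (β t)) (θ t : ℝ) :
    f β s₀ θ (β t) = b s₀ θ t := by
  apply le_antisymm
  · have h2 := ciInf_le (f_bdd β s₀ h0 θ (β t)) t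
    simp only [dist_self, add_zero] at h2
    exact h2
  · apply le_ciInf
    intro s
    have h2 := b_t s₀ h0 h1 θ t s
    have h3 := h t s
    linarith

end F

theorem main0 {M : Type} [MetricSpace M] (β : ℝ → M) (s₀ : ℝ) (h0 : 0 ≤ s₀) (h1 : s₀ ≤ 1)
    (h : ∀ s t : ℝ, 2 * arcsin (s₀ * |sin ((s - t) / 2)|) ≤ dist (β s) (β t)) :
    ∃ G : ℝ → M → ℝ, (∀ θ x y, |G θ x - G θ y| ≤ dist x y) ∧ (∀ θ x, G (θ + π) x = -G θ x) ∧
    (∀ θ x, |G θ x| ≤ arcsin s₀) ∧ (∀ θ θ' x, |G θ x - G θ' x| ≤ s₀ * |θ - θ'|) ∧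
    ∀ θ t : ℝ, G θ (β t) = arcsin (s₀ * cos (θ - t)) := by
  refine ⟨fun θ x => (f β s₀ θ x - f β s₀ (θ + π) x) / 2, ?_, ?_, ?_, ?_, ?_⟩
  · intro θ x y
    rw [abs_le]
    have a1 := f_lip β s₀ h0 θ x y
    have a2 := f_lip β s₀ h0 θ y x
    have a3 := f_lip β s₀ h0 (θ + π) x y
    have a4 := f_lip β s₀ h0 (θ + π) y x
    rw [dist_comm y x] at a2 a4
    constructor <;> dsimp only <;> linarith
  · intro θ x
    dsimp only
    rw [f_two]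
    ring
  · intro θ x
    dsimp only
    rw [abs_le]
    have a1 := f_pi β s₀ h0 θ x
    have a2 := f_pi' β s₀ h0 θ x
    constructor <;> linarith
  · intro θ θ' x
    dsimp only
    rw [abs_le]
    have a1 := f_theta β s₀ h0 h1 θ θ' x
    have a2 := f_theta β s₀ h0 h1 θ' θ x
    have a3 := f_theta β s₀ h0 h1 (θ + π) (θ' + π) x
    have a4 := f_theta β s₀ h0 h1 (θ' + π) (θ + π) x
    rw [abs_sub_comm] at a2 a4
    rw [show θ + π - (θ' + π) = θ - θ' by ring] at a3 a4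
    constructor <;> linarith
  · intro θ t
    dsimp only
    rw [f_bound β s₀ h0 h1 h, f_bound β s₀ h0 h1 h, b_pi]
    unfold b
    ring

theorem main : Pool.Agent.N979.CAP.S_EXT := by
  intro M _ β s₀ h0 h1 h
  exact main0 (fun t : ℝ => β (t : AddCircle (2 * π))) s₀ h0 h1 h

end Pool.Agent.N46.CAP_EXT
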