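import Pool.Agent.N585.FP.Defs

/-!
# FP/5: drawings with small bandwidth
-/

set_option autoImplicit false

namespace Pool.Agent.N46.FP5

open Pool.Agent.N585.FP

/-- A set of pairs any two of which agree in a coordinate lies in a row or in a column. -/
lemma row_or_col (C : Finset (ℕ × ℕ)) (h : ∀ e ∈ C, ∀ e' ∈ C, e.1 = e'.1 ∨ e.2 = e'.2) :
    (∃ r, ∀ e ∈ C, e.1 = r) ∨ (∃ c, ∀ e ∈ C, e.2 = c) := by
  classical
  rcases C.eq_empty_or_nonempty with rfl | ⟨e₀, he₀⟩
  · left; exact ⟨0, by simp⟩
  · by_cases hc : ∀ e ∈ C, e.2 = e₀.2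
    · right; exact ⟨_, hc⟩
    · push Not at hc
      obtain ⟨e₁, he₁, hne⟩ := hc
      have h1 : e₁.1 = e₀.1 := by
        rcases h e₁ he₁ e₀ he₀ with h' | h'
        · exact h'
        · exact absurd h' hne
      left
      refine ⟨e₀.1, fun e he => ?_⟩
      rcases h e he e₀ he₀ with h' | h'
      · exact h'
      · rcases h e he e₁ he₁ with h'' | h''
        · rw [h'', h1]
        · exact absurd (h''.symm.trans h') hne

section

variable {G : SimpleGraph ℕ} {U : Finset ℕ} {D : ℕ} {side : ℕ → Bool} {p : ℕ → ℕ}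

open Classical in
/-- The edges, top endpoint first. -/
noncomputable def EE (G : SimpleGraph ℕ) (U : Finset ℕ) (side : ℕ → Bool) : Finset (ℕ × ℕ) :=
  (U ×ˢ U).filter fun e => Ed G U side e.1 e.2

lemma mem_EE {e : ℕ × ℕ} : e ∈ EE G U side ↔ Ed G U side e.1 e.2 := by
  classical
  unfold EE
  rw [Finset.mem_filter, Finset.mem_product]
  exact ⟨fun h => h.2, fun h => ⟨⟨h.1, h.2.1⟩, h⟩⟩

lemma row_card (hdeg : DegLe G U D) (C : Finset (ℕ × ℕ)) (hC : ∀ e ∈ C, Ed G U side e.1 e.2)
    (r : ℕ) (hr : ∀ e ∈ C, e.1 = r) : C.card ≤ D := by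
  classical
  rcases C.eq_empty_or_nonempty with rfl | ⟨e₀, he₀⟩
  · simp
  · have hrU : r ∈ U := by
      have := (hC e₀ he₀).1
      rwa [hr e₀ he₀] at this
    have h1 : (C.image Prod.snd).card = C.card := by
      apply Finset.card_image_of_injOn
      intro e he e' he' h
      exact Prod.ext ((hr e he).trans (hr e' he').symm) h
    rw [← h1]
    apply hdeg r hrU
    · intro y hy
      obtain ⟨e, he, rfl⟩ := Finset.mem_image.mp hy
      exact (hC e he).2.1
    · intro y hy
      obtain ⟨e, he, rfl⟩ := Finset.mem_image.mp hy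
      have := (hC e he).2.2.2.2
      rwa [hr e he] at this

lemma col_card (hdeg : DegLe G U D) (C : Finset (ℕ × ℕ)) (hC : ∀ e ∈ C, Ed G U side e.1 e.2)
    (r : ℕ) (hr : ∀ e ∈ C, e.2 = r) : C.card ≤ D := by
  classical
  rcases C.eq_empty_or_nonempty with rfl | ⟨e₀, he₀⟩
  · simp
  · have hrU : r ∈ U := by
      have := (hC e₀ he₀).2.1
      rwa [hr e₀ he₀] at this
    have h1 : (C.image Prod.fst).card = C.card := by
      apply Finset.card_image_of_injOn
      intro e he e' he' h
      exact Prod.ext h ((hr e he).trans (hr e' he').symm)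
    rw [← h1]
    apply hdeg r hrU
    · intro y hy
      obtain ⟨e, he, rfl⟩ := Finset.mem_image.mp hy
      exact (hC e he).1
    · intro y hy
      obtain ⟨e, he, rfl⟩ := Finset.mem_image.mp hy
      have := (hC e he).2.2.2.2
      rw [hr e he] at this
      exact this.symm

open Classical in
/-- The edges crossing `a b`. -/
noncomputable def CC (G : SimpleGraph ℕ) (U : Finset ℕ) (side : ℕ → Bool) (p : ℕ → ℕ)
    (a b : ℕ) : Finset (ℕ × ℕ) :=
  (EE G U side).filter fun e => Cross p a b e.1 e.2

lemma CC_card (hdeg : DegLe G U D) (hd : Draw G U side p) {a b : ℕ} (hab : Ed G U side a b) :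
    (CC G U side p a b).card ≤ D := by
  classical
  have hmem : ∀ e ∈ CC G U side p a b, Ed G U side e.1 e.2 ∧ Cross p a b e.1 e.2 := by
    intro e he
    unfold CC at he
    rw [Finset.mem_filter, mem_EE] at he
    exact he
  rcases row_or_col (CC G U side p a b) (fun e he e' he' =>
    hd.fan a b e.1 e.2 e'.1 e'.2 hab (hmem e he).1 (hmem e' he').1 (hmem e he).2
      (hmem e' he').2) with ⟨r, hr⟩ | ⟨r, hr⟩
  · exact row_card hdeg _ (fun e he => (hmem e he).1) r hr
  · exact col_card hdeg _ (fun e he => (hmem e he).1) r hr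

open Classical in
/-- Number of edges to the left of a vertex. -/
noncomputable def ff (G : SimpleGraph ℕ) (U : Finset ℕ) (side : ℕ → Bool) (p : ℕ → ℕ)
    (v : ℕ) : ℕ :=
  if side v = true then ((EE G U side).filter fun e => p e.1 < p v).card
  else ((EE G U side).filter fun e => p e.2 < p v).card

lemma ff_mono (hd : Draw G U side p) (hnb : ∀ x ∈ U, ∃ y ∈ U, G.Adj x y) {u v : ℕ} (hu : u ∈ U)
    (hs : side u = side v) (huv : p u < p v) :
    ff G U side p u < ff G U side p v := by
  classical
  obtain ⟨y, hy, hadj⟩ := hnb u hu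
  have hsy := hd.bip u hu y hy hadj
  unfold ff
  by_cases hsu : side u = true
  · have hsv : side v = true := by rw [← hs]; exact hsu
    rw [if_pos hsu, if_pos hsv]
    have hsy' : side y = false := by
      cases hh : side y
      · rfl
      · exact absurd (hsu.trans hh.symm) hsy
    apply Finset.card_lt_card
    rw [Finset.ssubset_iff_of_subset]
    · refine ⟨(u, y), ?_, ?_⟩
      · rw [Finset.mem_filter, mem_EE]
        exact ⟨⟨hu, hy, hsu, hsy', hadj⟩, huv⟩
      · rw [Finset.mem_filter]
        rintro ⟨_, h⟩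
        exact lt_irrefl _ h
    · intro e he
      rw [Finset.mem_filter] at he ⊢
      exact ⟨he.1, he.2.trans huv⟩
  · have hsv : ¬ side v = true := by rw [← hs]; exact hsu
    rw [if_neg hsu, if_neg hsv]
    have hsu' : side u = false := by simpa using hsu
    have hsy' : side y = true := by
      cases hh : side y
      · exact absurd (hsu'.trans hh.symm) hsy
      · rfl
    apply Finset.card_lt_card
    rw [Finset.ssubset_iff_of_subset]
    · refine ⟨(y, u), ?_, ?_⟩
      · rw [Finset.mem_filter, mem_EE]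
        exact ⟨⟨hy, hu, hsy', hsu', hadj.symm⟩, huv⟩
      · rw [Finset.mem_filter]
        rintro ⟨_, h⟩
        exact lt_irrefl _ h
    · intro e he
      rw [Finset.mem_filter] at he ⊢
      exact ⟨he.1, he.2.trans huv⟩

lemma ff_edge1 (hdeg : DegLe G U D) (hd : Draw G U side p) {a b : ℕ} (hab : Ed G U side a b) :
    ff G U side p a + 1 ≤ ff G U side p b + 2 * D := by
  classical
  have hsa : side a = true := hab.2.2.1
  have hsb : ¬ side b = true := by rw [hab.2.2.2.1]; simp
  unfold ff
  rw [if_pos hsa, if_neg hsb]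
  set A := (EE G U side).filter fun e => p e.1 < p a with hA
  set B := (EE G U side).filter fun e => p e.2 < p b with hB
  set R := (EE G U side).filter fun e => e.2 = b with hR
  have hRc : R.card ≤ D := by
    refine col_card (side := side) hdeg R ?_ b ?_
    · intro e he
      rw [hR, Finset.mem_filter, mem_EE] at he
      exact he.1
    · intro e he
      rw [hR, Finset.mem_filter] at he
      exact he.2
  have hRm : (a, b) ∈ R := by
    rw [hR, Finset.mem_filter, mem_EE]
    exact ⟨hab, rfl⟩
  have hsub : A ⊆ B ∪ (CC G U side p a b ∪ R.erase (a, b)) := by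
    intro e he
    rw [hA, Finset.mem_filter] at he
    obtain ⟨heE, hep⟩ := he
    have heE' := mem_EE.mp heE
    rcases lt_trichotomy (p e.2) (p b) with h | h | h
    · apply Finset.mem_union_left
      rw [hB, Finset.mem_filter]
      exact ⟨heE, h⟩
    · apply Finset.mem_union_right
      apply Finset.mem_union_right
      have hb : e.2 = b := hd.inj e.2 heE'.2.1 b hab.2.1 h
      rw [Finset.mem_erase]
      refine ⟨?_, ?_⟩
      · intro h'
        rw [h'] at hep
        exact lt_irrefl _ hep
      · rw [hR, Finset.mem_filter]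
        exact ⟨heE, hb⟩
    · apply Finset.mem_union_right
      apply Finset.mem_union_left
      unfold CC
      rw [Finset.mem_filter]
      exact ⟨heE, Or.inr ⟨hep, h⟩⟩
  have h1 := Finset.card_le_card hsub
  have h2 := Finset.card_union_le B (CC G U side p a b ∪ R.erase (a, b))
  have h3 := Finset.card_union_le (CC G U side p a b) (R.erase (a, b))
  have h4 := Finset.card_erase_of_mem hRm
  have h5 := CC_card hdeg hd hab
  have h6 : 1 ≤ R.card := Finset.card_pos.mpr ⟨_, hRm⟩
  omega

lemma ff_edge2 (hdeg : DegLe G U D) (hd : Draw G U side p) {a b : ℕ} (hab : Ed G U side a b) :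
    ff G U side p b + 1 ≤ ff G U side p a + 2 * D := by
  classical
  have hsa : side a = true := hab.2.2.1
  have hsb : ¬ side b = true := by rw [hab.2.2.2.1]; simp
  unfold ff
  rw [if_pos hsa, if_neg hsb]
  set A := (EE G U side).filter fun e => p e.1 < p a with hA
  set B := (EE G U side).filter fun e => p e.2 < p b with hB
  set R := (EE G U side).filter fun e => e.1 = a with hR
  have hRc : R.card ≤ D := by
    refine row_card (side := side) hdeg R ?_ a ?_
    · intro e he
      rw [hR, Finset.mem_filter, mem_EE] at he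
      exact he.1
    · intro e he
      rw [hR, Finset.mem_filter] at he
      exact he.2
  have hRm : (a, b) ∈ R := by
    rw [hR, Finset.mem_filter, mem_EE]
    exact ⟨hab, rfl⟩
  have hsub : B ⊆ A ∪ (CC G U side p a b ∪ R.erase (a, b)) := by
    intro e he
    rw [hB, Finset.mem_filter] at he
    obtain ⟨heE, hep⟩ := he
    have heE' := mem_EE.mp heE
    rcases lt_trichotomy (p e.1) (p a) with h | h | h
    · apply Finset.mem_union_left
      rw [hA, Finset.mem_filter]
      exact ⟨heE, h⟩
    · apply Finset.mem_union_right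
      apply Finset.mem_union_right
      have hb : e.1 = a := hd.inj e.1 heE'.1 a hab.1 h
      rw [Finset.mem_erase]
      refine ⟨?_, ?_⟩
      · intro h'
        rw [h'] at hep
        exact lt_irrefl _ hep
      · rw [hR, Finset.mem_filter]
        exact ⟨heE, hb⟩
    · apply Finset.mem_union_right
      apply Finset.mem_union_left
      unfold CC
      rw [Finset.mem_filter]
      exact ⟨heE, Or.inl ⟨h, hep⟩⟩
  have h1 := Finset.card_le_card hsub
  have h2 := Finset.card_union_le A (CC G U side p a b ∪ R.erase (a, b))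
  have h3 := Finset.card_union_le (CC G U side p a b) (R.erase (a, b))
  have h4 := Finset.card_erase_of_mem hRm
  have h5 := CC_card hdeg hd hab
  have h6 : 1 ≤ R.card := Finset.card_pos.mpr ⟨_, hRm⟩
  omega

/-- The key by which the vertices are sorted. -/
noncomputable def kk (G : SimpleGraph ℕ) (U : Finset ℕ) (side : ℕ → Bool) (p : ℕ → ℕ)
    (v : ℕ) : ℕ :=
  2 * ff G U side p v + (if side v = true then 1 else 0)

lemma kk_mono (hd : Draw G U side p) (hnb : ∀ x ∈ U, ∃ y ∈ U, G.Adj x y) {u v : ℕ} (hu : u ∈ U)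
    (hs : side u = side v) (huv : p u < p v) :
    kk G U side p u < kk G U side p v := by
  have h := ff_mono hd hnb hu hs huv
  unfold kk
  rw [hs]
  omega

lemma kk_inj (hd : Draw G U side p) (hnb : ∀ x ∈ U, ∃ y ∈ U, G.Adj x y) {u v : ℕ} (hu : u ∈ U)
    (hv : v ∈ U) (h : kk G U side p u = kk G U side p v) : u = v := by
  have hs : side u = side v := by
    unfold kk at h
    cases hsu : side u <;> cases hsv : side v <;> simp [hsu, hsv] at h ⊢ <;> omega
  rcases lt_trichotomy (p u) (p v) with h' | h' | h'
  · exact absurd h (kk_mono hd hnb hu hs h').ne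
  · exact hd.inj u hu v hv h'
  · exact absurd h (kk_mono hd hnb hv hs.symm h').ne'

open Classical in
/-- The new positions. -/
noncomputable def qq (G : SimpleGraph ℕ) (U : Finset ℕ) (side : ℕ → Bool) (p : ℕ → ℕ)
    (v : ℕ) : ℕ :=
  (U.filter fun w => kk G U side p w < kk G U side p v).card

lemma qq_mono {u v : ℕ} (hu : u ∈ U) (h : kk G U side p u < kk G U side p v) :
    qq G U side p u < qq G U side p v := by
  classical
  unfold qq
  apply Finset.card_lt_card
  rw [Finset.ssubset_iff_of_subset]
  · refine ⟨u, ?_, ?_⟩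
    · rw [Finset.mem_filter]
      exact ⟨hu, h⟩
    · rw [Finset.mem_filter]
      rintro ⟨_, h'⟩
      exact lt_irrefl _ h'
  · intro e he
    rw [Finset.mem_filter] at he ⊢
    exact ⟨he.1, he.2.trans h⟩

lemma qq_lt_card {v : ℕ} (hv : v ∈ U) : qq G U side p v < U.card := by
  classical
  unfold qq
  apply Finset.card_lt_card
  rw [Finset.ssubset_iff_of_subset (Finset.filter_subset _ _)]
  refine ⟨v, hv, ?_⟩
  rw [Finset.mem_filter]
  rintro ⟨_, h'⟩
  exact lt_irrefl _ h'

lemma qq_inj (hd : Draw G U side p) (hnb : ∀ x ∈ U, ∃ y ∈ U, G.Adj x y) {u v : ℕ} (hu : u ∈ U)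
    (hv : v ∈ U) (h : qq G U side p u = qq G U side p v) : u = v := by
  apply kk_inj hd hnb hu hv
  rcases lt_trichotomy (kk G U side p u) (kk G U side p v) with h' | h' | h'
  · exact absurd h (qq_mono hu h').ne
  · exact h'
  · exact absurd h (qq_mono hv h').ne'

lemma lt_of_qq (hd : Draw G U side p) (hnb : ∀ x ∈ U, ∃ y ∈ U, G.Adj x y) {u v : ℕ} (hu : u ∈ U)
    (hv : v ∈ U) (hs : side u = side v) (h : qq G U side p u < qq G U side p v) : p u < p v := by
  rcases lt_trichotomy (p u) (p v) with h' | h' | h'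
  · exact h'
  · have := hd.inj u hu v hv h'
    subst this
    exact absurd h (lt_irrefl _)
  · exact absurd h (not_lt.mpr (qq_mono hv (kk_mono hd hnb hv hs.symm h')).le)

lemma qq_close (hd : Draw G U side p) (hnb : ∀ x ∈ U, ∃ y ∈ U, G.Adj x y) {x y : ℕ}
    (h : kk G U side p x ≤ kk G U side p y + 4 * D) :
    qq G U side p x ≤ qq G U side p y + 4 * D := by
  classical
  unfold qq
  set M := U.filter fun w => kk G U side p y ≤ kk G U side p w ∧ kk G U side p w < kk G U side p x
    with hM
  have hsub : (U.filter fun w => kk G U side p w < kk G U side p x) ⊆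
      (U.filter fun w => kk G U side p w < kk G U side p y) ∪ M := by
    intro w hw
    rw [Finset.mem_filter] at hw
    by_cases h' : kk G U side p w < kk G U side p y
    · apply Finset.mem_union_left
      rw [Finset.mem_filter]
      exact ⟨hw.1, h'⟩
    · apply Finset.mem_union_right
      rw [hM, Finset.mem_filter]
      exact ⟨hw.1, not_lt.mp h', hw.2⟩
  have hMc : M.card ≤ (Finset.Ico (kk G U side p y) (kk G U side p x)).card := by
    apply Finset.card_le_card_of_injOn (fun w => kk G U side p w)
    · intro w hw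
      have hw' := Finset.mem_coe.mp hw
      rw [hM, Finset.mem_filter] at hw'
      rw [Finset.mem_coe, Finset.mem_Ico]
      exact hw'.2
    · intro w hw w' hw' hww
      have h1 := Finset.mem_coe.mp hw
      have h2 := Finset.mem_coe.mp hw'
      rw [hM, Finset.mem_filter] at h1 h2
      exact kk_inj hd hnb h1.1 h2.1 hww
  rw [Nat.card_Ico] at hMc
  have h1 := Finset.card_le_card hsub
  have h2 := Finset.card_union_le (U.filter fun w => kk G U side p w < kk G U side p y) M
  omega

end

/-- FP/5. -/
theorem stmBand : StmBand := by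
  intro G U D hdeg hnb hdr
  obtain ⟨side, p, hd⟩ := hdr
  refine ⟨side, qq G U side p, ⟨?_, hd.bip, ?_⟩, fun x hx => qq_lt_card hx, ?_⟩
  · intro x hx y hy h
    exact qq_inj hd hnb hx hy h
  · intro a b a₁ b₁ a₂ b₂ h h₁ h₂ hc₁ hc₂
    have key : ∀ a' b', Ed G U side a' b' → Cross (qq G U side p) a b a' b' →
        Cross p a b a' b' := by
      intro a' b' h' hc
      rcases hc with ⟨h3, h4⟩ | ⟨h3, h4⟩
      · left
        exact ⟨lt_of_qq hd hnb h.1 h'.1 (h.2.2.1.trans h'.2.2.1.symm) h3,
          lt_of_qq hd hnb h'.2.1 h.2.1 (h'.2.2.2.1.trans h.2.2.2.1.symm) h4⟩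
      · right
        exact ⟨lt_of_qq hd hnb h'.1 h.1 (h'.2.2.1.trans h.2.2.1.symm) h3,
          lt_of_qq hd hnb h.2.1 h'.2.1 (h.2.2.2.1.trans h'.2.2.2.1.symm) h4⟩
    exact hd.fan a b a₁ b₁ a₂ b₂ h h₁ h₂ (key a₁ b₁ h₁ hc₁) (key a₂ b₂ h₂ hc₂)
  · intro x hx y hy hadj
    apply qq_close hd hnb
    have hs := hd.bip x hx y hy hadj
    cases hsx : side x
    · have hsy : side y = true := by
        cases hh : side y
        · exact absurd (hsx.trans hh.symm) hs
        · rfl
      have h1 := ff_edge2 hdeg hd (a := y) (b := x) ⟨hy, hx, hsy, hsx, hadj.symm⟩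
      unfold kk
      rw [hsx, hsy]
      simp
      omega
    · have hsy : side y = false := by
        cases hh : side y
        · rfl
        · exact absurd (hsx.trans hh.symm) hs
      have h1 := ff_edge1 hdeg hd (a := x) (b := y) ⟨hx, hy, hsx, hsy, hadj⟩
      unfold kk
      rw [hsx, hsy]
      simp
      omega

end Pool.Agent.N46.FP5
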