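import Mathlib
import Pool.Agent.N604.MW.Stm
import Pool.Agent.N604.MW.Stm2
import Pool.Agent.N401.MW_Low
import Pool.Agent.H295R3.Hoheisel

set_option autoImplicit false

/-! Project PW (helper604), tasks PMASS and PLOW: the weighted numbers of values at primes. -/

namespace Pool.Agent.N46.PW

open Finset Filter Topology
open Pool.Agent.N604.MW Pool.Agent.N401.MW

lemma lam_nonneg (n : ℕ) : 0 ≤ lam n := by
  unfold lam
  split_ifs
  · exact Real.log_natCast_nonneg n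
  · exact le_refl _

/-- the sum of `log p` over an interval of natural numbers -/
lemma lam_sum {η : ℝ} {A Y L : ℕ} (hA : 2 ≤ A) (hYL : Y + 1 ≤ L)
    (hp : η * Y / Real.log A ≤ (((Ioc A (A + Y)).filter Nat.Prime).card : ℝ)) :
    η * Y ≤ ∑ n ∈ range L, lam (A + n) := by
  have hlog : 0 < Real.log A := Real.log_pos (by exact_mod_cast hA)
  have h1 : ((((Ioc A (A + Y)).filter Nat.Prime).card : ℝ)) * Real.log A ≤
      ∑ p ∈ (Ioc A (A + Y)).filter Nat.Prime, lam p := by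
    rw [← nsmul_eq_mul]
    refine card_nsmul_le_sum _ _ _ fun p hp => ?_
    rw [mem_filter, mem_Ioc] at hp
    unfold lam
    rw [if_pos hp.2]
    exact Real.log_le_log (by positivity) (by exact_mod_cast hp.1.1.le)
  have h2 : ∑ p ∈ (Ioc A (A + Y)).filter Nat.Prime, lam p ≤
      ∑ n ∈ (range L).image (fun n => A + n), lam n := by
    refine sum_le_sum_of_subset_of_nonneg ?_ fun _ _ _ => lam_nonneg _
    intro p hp
    rw [mem_filter, mem_Ioc] at hp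
    rw [mem_image]
    exact ⟨p - A, by rw [mem_range]; omega, by omega⟩
  rw [sum_image (by intro x _ y _ hxy; simpa using hxy)] at h2
  rw [div_le_iff₀ hlog] at hp
  linarith

/-- the weighted mass of an interval of length at least `X ^ (1 - σ)` -/
lemma key (h : S_PPOINT) (d : ℕ) (c b : ℝ) (θ : Fin d → ℝ) (hd : 1 ≤ d) (hc : 0 < c) (hD : Dio d c θ)
    (C0 : ℕ) (c1 : ℝ) (hc1 : 0 < c1) :
    ∃ σ κ : ℝ, 0 < σ ∧ σ ≤ 1 ∧ 0 < κ ∧ ∃ X0 : ℕ, 1 ≤ X0 ∧ ∀ X A L : ℕ, X0 ≤ X → A + L ≤ C0 * X →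
      c1 * X ≤ A → (X : ℝ) ^ (1 - σ) ≤ L →
      κ * L ≤ ∑ n ∈ range L, lam (A + n) * Real.sin (Real.pi * PP d c b θ ((A + n : ℕ) : ℝ)) ^ 2 := by
  obtain ⟨σ₁, hσ₁, X1, h1⟩ := h d c b θ hd hc hD C0 (1 / 2) (by norm_num)
  obtain ⟨δ, η, hδ, hδ1, hη, X2, hX2, h2⟩ := Pool.Agent.H295R3.D.hoheisel
  obtain ⟨σ, hσdef⟩ : ∃ σ : ℝ, σ = min (σ₁ / 2) (δ / 2) := ⟨_, rfl⟩
  have hσ : 0 < σ := by rw [hσdef]; exact lt_min (by positivity) (by positivity)
  have hσa : σ ≤ σ₁ / 2 := by rw [hσdef]; exact min_le_left _ _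
  have hσb : σ ≤ δ / 2 := by rw [hσdef]; exact min_le_right _ _
  obtain ⟨K, hK⟩ : ∃ K : ℝ, K = min (1 / 2) (c1 / (C0 + 1)) := ⟨_, rfl⟩
  have hK0 : 0 < K := by rw [hK]; exact lt_min (by norm_num) (by positivity)
  have hKa : K ≤ 1 / 2 := by rw [hK]; exact min_le_left _ _
  have hKb : K * (C0 + 1) ≤ c1 := by
    have h3 : K ≤ c1 / (C0 + 1) := by rw [hK]; exact min_le_right _ _
    rwa [le_div_iff₀ (by positivity)] at h3
  obtain ⟨X3, hX3, h3⟩ := ev_rpow (δ / 2) (2 * (C0 + 1)) (by positivity)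
  obtain ⟨X4, hX4, h4⟩ := ev_rpow (σ₁ / 2) (2 / (η * K)) (by positivity)
  obtain ⟨X5, hX5, h5⟩ := ev_rpow (1 / 2) 2 (by norm_num)
  obtain ⟨X6, hX6⟩ : ∃ X6 : ℕ, (max (X2 : ℝ) 2) / c1 ≤ X6 := exists_nat_ge _
  refine ⟨σ, η * K / 4, hσ, by linarith, by positivity,
    max (max X1 (max X3 X4)) (max X5 X6), (hX5.trans (le_max_left _ _)).trans (le_max_right _ _),
    fun X A L hX hAL hcA hL => ?_⟩
  have g1 : X1 ≤ X := ((le_max_left _ _).trans (le_max_left _ _)).trans hX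
  have g3 : X3 ≤ X := (((le_max_left _ _).trans (le_max_right _ _)).trans (le_max_left _ _)).trans hX
  have g4 : X4 ≤ X := (((le_max_right _ _).trans (le_max_right _ _)).trans (le_max_left _ _)).trans hX
  have g5 : X5 ≤ X := ((le_max_left _ _).trans (le_max_right _ _)).trans hX
  have g6 : X6 ≤ X := ((le_max_right _ _).trans (le_max_right _ _)).trans hX
  have hX1 : 1 ≤ X := hX5.trans g5
  have hXr : (1 : ℝ) ≤ X := by exact_mod_cast hX1
  have hXp : (0 : ℝ) < X := by linarith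
  have k3 := h3 X g3
  have k4 := h4 X g4
  have k5 := h5 X g5
  -- `A` is large
  have hAbig : max (X2 : ℝ) 2 ≤ A := by
    have e1 : (max (X2 : ℝ) 2) / c1 ≤ X := hX6.trans (by exact_mod_cast g6)
    rw [div_le_iff₀ hc1] at e1
    linarith
  have hA2 : 2 ≤ A := by exact_mod_cast (le_max_right _ _).trans hAbig
  have hAX2 : X2 ≤ A := by exact_mod_cast (le_max_left _ _).trans hAbig
  have hAp : (0 : ℝ) < A := by
    have : (2 : ℝ) ≤ A := by exact_mod_cast hA2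
    linarith
  have hALr : (A : ℝ) + L ≤ C0 * X := by exact_mod_cast hAL
  -- `L` is large
  have hL2 : 2 ≤ L := by
    have e1 : (X : ℝ) ^ (1 / 2 : ℝ) ≤ (X : ℝ) ^ (1 - σ) := by
      apply Real.rpow_le_rpow_of_exponent_le hXr
      linarith
    have e2 : (2 : ℝ) ≤ L := by linarith
    exact_mod_cast e2
  have hL2r : (2 : ℝ) ≤ L := by exact_mod_cast hL2
  -- the primes
  obtain ⟨Y, hY⟩ : ∃ Y : ℕ, Y = min (L - 1) A := ⟨_, rfl⟩
  have hYL : Y + 1 ≤ L := by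
    have : Y ≤ L - 1 := by rw [hY]; exact min_le_left _ _
    omega
  have hYA : Y ≤ A := by rw [hY]; exact min_le_right _ _
  have hL1 : ((L - 1 : ℕ) : ℝ) = L - 1 := by
    rw [Nat.cast_sub (by omega)]
    norm_num
  have hYlow : (A : ℝ) ^ (1 - δ) ≤ Y := by
    rw [hY]
    push_cast
    refine le_min ?_ ?_
    · have e0 : 0 ≤ (C0 : ℝ) * X := by positivity
      have e1 : (A : ℝ) ^ (1 - δ) ≤ ((C0 + 1 : ℝ) * X) ^ (1 - δ) := by
        apply Real.rpow_le_rpow hAp.le _ (by linarith)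
        have : (0 : ℝ) ≤ L := Nat.cast_nonneg _
        nlinarith
      have e2 : ((C0 + 1 : ℝ) * X) ^ (1 - δ) = (C0 + 1 : ℝ) ^ (1 - δ) * (X : ℝ) ^ (1 - δ) :=
        Real.mul_rpow (by positivity) hXp.le
      have e3 : (C0 + 1 : ℝ) ^ (1 - δ) ≤ C0 + 1 := by
        have e4 : (C0 + 1 : ℝ) ^ (1 - δ) ≤ (C0 + 1 : ℝ) ^ (1 : ℝ) := by
          apply Real.rpow_le_rpow_of_exponent_le
          · have : (0 : ℝ) ≤ C0 := Nat.cast_nonneg _
            linarith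
          · linarith
        rwa [Real.rpow_one] at e4
      have e5 : 2 * ((C0 + 1 : ℝ) * (X : ℝ) ^ (1 - δ)) ≤ (X : ℝ) ^ (1 - δ / 2) := by
        have e6 : (X : ℝ) ^ (1 - δ / 2) = (X : ℝ) ^ (δ / 2) * (X : ℝ) ^ (1 - δ) := by
          rw [← Real.rpow_add hXp]
          congr 1
          ring
        rw [e6]
        have e7 : 0 < (X : ℝ) ^ (1 - δ) := Real.rpow_pos_of_pos hXp _
        nlinarith
      have e8 : (X : ℝ) ^ (1 - δ / 2) ≤ (X : ℝ) ^ (1 - σ) := by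
        apply Real.rpow_le_rpow_of_exponent_le hXr
        linarith
      have e9 : (C0 + 1 : ℝ) ^ (1 - δ) * (X : ℝ) ^ (1 - δ) ≤ (C0 + 1 : ℝ) * (X : ℝ) ^ (1 - δ) :=
        mul_le_mul_of_nonneg_right e3 (Real.rpow_nonneg hXp.le _)
      rw [hL1]
      linarith
    · have e1 : (A : ℝ) ^ (1 - δ) ≤ (A : ℝ) ^ (1 : ℝ) := by
        apply Real.rpow_le_rpow_of_exponent_le
        · exact_mod_cast (by omega : 1 ≤ A)
        · linarith
      rwa [Real.rpow_one] at e1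
  have hpr := h2 A Y hAX2 hYlow hYA
  have hsum := lam_sum hA2 hYL hpr
  have hYK : K * L ≤ Y := by
    rw [hY]
    push_cast
    refine le_min ?_ ?_
    · rw [hL1]
      have : K * L ≤ 1 / 2 * L := mul_le_mul_of_nonneg_right hKa (by positivity)
      linarith
    · have e1 : (L : ℝ) ≤ (C0 + 1) * X := by nlinarith
      have e2 : K * L ≤ K * ((C0 + 1) * X) := mul_le_mul_of_nonneg_left e1 hK0.le
      have e3 : K * ((C0 + 1) * X) ≤ c1 * X := by
        rw [← mul_assoc]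
        exact mul_le_mul_of_nonneg_right hKb hXp.le
      linarith
  -- the exponential sum
  have hE := h1 X A L g1 hAL 1 (by
    rw [abs_one]
    apply Real.rpow_le_one_of_one_le_of_nonpos hXr
    have : (0 : ℝ) ≤ d := Nat.cast_nonneg _
    linarith) (by
    rw [abs_one]
    exact Real.one_le_rpow hXr hσ₁.le)
  simp only [one_mul] at hE
  have hE2 : (∑ n ∈ range L, ((lam (A + n) : ℝ) : ℂ) * e (PP d c b θ ((A + n : ℕ) : ℝ))).re ≤
      (X : ℝ) ^ (1 - σ₁) := (Complex.re_le_norm _).trans hE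
  rw [Complex.re_sum] at hE2
  simp only [Complex.re_ofReal_mul] at hE2
  have hE3 : ∑ n ∈ range L, lam (A + n) * Real.sin (Real.pi * PP d c b θ ((A + n : ℕ) : ℝ)) ^ 2 =
      (∑ n ∈ range L, lam (A + n)) / 2 -
        (∑ n ∈ range L, lam (A + n) * (e (PP d c b θ ((A + n : ℕ) : ℝ))).re) / 2 := by
    rw [sum_div, sum_div, ← sum_sub_distrib]
    refine sum_congr rfl fun n _ => ?_
    rw [sin_sq_e]
    ring
  rw [hE3]
  have hE4 : (X : ℝ) ^ (1 - σ₁) ≤ η * K / 2 * L := by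
    have e1 : (X : ℝ) ^ (1 - σ₁ / 2) = (X : ℝ) ^ (σ₁ / 2) * (X : ℝ) ^ (1 - σ₁) := by
      rw [← Real.rpow_add hXp]
      congr 1
      ring
    have e2 : (X : ℝ) ^ (1 - σ₁ / 2) ≤ (X : ℝ) ^ (1 - σ) := by
      apply Real.rpow_le_rpow_of_exponent_le hXr
      linarith
    have e3 : 2 / (η * K) * (X : ℝ) ^ (1 - σ₁) ≤ L := by
      have e4 : 2 / (η * K) * (X : ℝ) ^ (1 - σ₁) ≤ (X : ℝ) ^ (σ₁ / 2) * (X : ℝ) ^ (1 - σ₁) :=
        mul_le_mul_of_nonneg_right k4 (Real.rpow_nonneg hXp.le _)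
      linarith
    have e5 : (X : ℝ) ^ (1 - σ₁) = η * K / 2 * (2 / (η * K) * (X : ℝ) ^ (1 - σ₁)) := by
      field_simp
    rw [e5]
    exact mul_le_mul_of_nonneg_left e3 (by positivity)
  have hE5 : η * (K * L) ≤ η * Y := mul_le_mul_of_nonneg_left hYK hη.le
  have e6 : η * (K * L) = η * K * L := by ring
  linarith

theorem pmass (h : S_PPOINT) : S_PMASS := by
  intro d c b θ hd hc hD C0
  obtain ⟨σ, κ, hσ, hσ1, hκ, X0, hX0, h0⟩ := key h d c b θ hd hc hD (C0 + 2) 1 one_pos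
  refine ⟨κ, hκ, X0, fun X A hX hXA hA => ?_⟩
  have hX1 : 1 ≤ X := hX0.trans hX
  have hXr : (1 : ℝ) ≤ X := by exact_mod_cast hX1
  have h2 := h0 X A (X + 1) hX (by nlinarith) (by rw [one_mul]; exact_mod_cast hXA) (by
    have e1 : (X : ℝ) ^ (1 - σ) ≤ (X : ℝ) ^ (1 : ℝ) :=
      Real.rpow_le_rpow_of_exponent_le hXr (by linarith)
    rw [Real.rpow_one] at e1
    push_cast
    linarith)
  have h3 : ∑ n ∈ Icc A (A + X), lam n * Real.sin (Real.pi * PP d c b θ n) ^ 2 =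
      ∑ n ∈ range (X + 1), lam (A + n) * Real.sin (Real.pi * PP d c b θ ((A + n : ℕ) : ℝ)) ^ 2 := by
    have h4 : Icc A (A + X) = Ico A (A + (X + 1)) := by
      ext n
      simp only [mem_Icc, mem_Ico]
      omega
    rw [h4, sum_Ico_eq_sum_range]
    have h5 : A + (X + 1) - A = X + 1 := by omega
    rw [h5]
  rw [h3]
  push_cast at h2
  push_cast
  linarith

/-- upper bound for the values of the polynomial -/
lemma PP_up (d : ℕ) (c b : ℝ) (θ : Fin d → ℝ) (hc : 0 < c) {x : ℝ} (hx : 1 ≤ x) :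
    PP d c b θ x ≤ (c + ∑ j : Fin d, |θ j| + |b|) * x ^ (d + 1) := by
  unfold PP
  have hp : 1 ≤ x ^ (d + 1) := one_le_pow₀ hx
  have h1 : ∑ j : Fin d, θ j * x ^ ((j : ℕ) + 1) ≤ (∑ j : Fin d, |θ j|) * x ^ (d + 1) := by
    rw [sum_mul]
    refine sum_le_sum fun j _ => ?_
    have h2 : x ^ ((j : ℕ) + 1) ≤ x ^ (d + 1) := pow_le_pow_right₀ hx (by have := j.2; omega)
    have h3 : 0 ≤ x ^ ((j : ℕ) + 1) := by positivity
    have h4 : |θ j * x ^ ((j : ℕ) + 1)| ≤ |θ j| * x ^ (d + 1) := by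
      rw [abs_mul, abs_of_nonneg h3]
      exact mul_le_mul_of_nonneg_left h2 (abs_nonneg _)
    exact (le_abs_self _).trans h4
  have h5 : b ≤ |b| * x ^ (d + 1) := by
    have h6 := le_abs_self b
    have h7 : |b| * 1 ≤ |b| * x ^ (d + 1) := mul_le_mul_of_nonneg_left hp (abs_nonneg b)
    linarith
  linarith

theorem plow (h : S_PPOINT) : S_PLOW := by
  intro d c b θ hd hc hD C1 hC1
  -- the constant `C0`
  obtain ⟨C0, hC0⟩ : ∃ C0 : ℕ, 2 * (C1 + 1) / c ≤ C0 := exists_nat_ge _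
  have hC0c : 2 * (C1 + 1) ≤ c * C0 := by
    rw [div_le_iff₀ hc] at hC0
    linarith
  have hC01 : 1 ≤ C0 := by
    rcases Nat.eq_zero_or_pos C0 with h1 | h1
    · rw [h1] at hC0c
      norm_num at hC0c
      linarith
    · exact h1
  have hC01r : (1 : ℝ) ≤ C0 := by exact_mod_cast hC01
  -- the constant `c1`
  obtain ⟨c1, hc1⟩ : ∃ c1 : ℝ, c1 = 1 / (1 + (c + ∑ j : Fin d, |θ j| + |b|)) := ⟨_, rfl⟩
  have hsθ : 0 ≤ ∑ j : Fin d, |θ j| := sum_nonneg fun j _ => abs_nonneg _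
  have hc10 : 0 < c1 := by
    rw [hc1]
    have := abs_nonneg b
    positivity
  have hc11 : c1 ≤ 1 := by
    rw [hc1, div_le_one (by positivity)]
    have := abs_nonneg b
    linarith
  have hc12 : (c + ∑ j : Fin d, |θ j| + |b|) * c1 ≤ 1 := by
    rw [hc1, mul_one_div, div_le_one (by positivity)]
    linarith
  obtain ⟨σ₁, κ₁, hσ₁, hσ₁1, hκ₁, X0, hX0, h0⟩ := key h d c b θ hd hc hD (C0 + 1) c1 hc10
  obtain ⟨C3, hC3⟩ : ∃ C3 : ℝ, C3 = LC d c θ * C0 ^ d := ⟨_, rfl⟩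
  have hLC : 0 < LC d c θ := by
    unfold LC
    have h1 : 0 < |c| := abs_pos.2 hc.ne'
    have h2 : 0 ≤ ∑ j : Fin d, |θ j| * (((j : ℕ) : ℝ) + 1) := sum_nonneg fun j _ => by positivity
    positivity
  have hC3p : 0 < C3 := by rw [hC3]; positivity
  obtain ⟨X1, hX1, h1⟩ := ev_rpow (σ₁ / 2) (4 * C3) (by positivity)
  obtain ⟨X2, hX2⟩ : ∃ X2 : ℕ, max |b| (1 / c1) ≤ X2 := exists_nat_ge _
  obtain ⟨X3, hX3⟩ : ∃ X3 : ℕ, 2 * (∑ j : Fin d, |θ j| + |b|) / c ≤ X3 := exists_nat_ge _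
  refine ⟨C0, κ₁ / (2 * C3), σ₁ / 2, by positivity, by positivity, max (max X0 X1) (max X2 X3),
    fun X W M hX hM1 hM2 hW1 hW2 => ?_⟩
  have hXa : X0 ≤ X := ((le_max_left _ _).trans (le_max_left _ _)).trans hX
  have hXb : X1 ≤ X := ((le_max_right _ _).trans (le_max_left _ _)).trans hX
  have hXc : X2 ≤ X := ((le_max_left _ _).trans (le_max_right _ _)).trans hX
  have hXd : X3 ≤ X := ((le_max_right _ _).trans (le_max_right _ _)).trans hX
  have hX1' : 1 ≤ X := hX0.trans hXa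
  have hXr : (1 : ℝ) ≤ X := by exact_mod_cast hX1'
  have hXp : (0 : ℝ) < X := by linarith
  have hXcr : max |b| (1 / c1) ≤ X := hX2.trans (by exact_mod_cast hXc)
  -- the end of the interval
  obtain ⟨R, hR⟩ : ∃ R : ℝ, R = C0 * X := ⟨_, rfl⟩
  have hR1 : 1 ≤ R := by rw [hR]; nlinarith
  have hPR : (M : ℝ) + W ≤ PP d c b θ R := by
    refine le_trans ?_ (PP_low d c b θ hR1)
    have hXc3 : 2 * (∑ j : Fin d, |θ j| + |b|) ≤ c * R := by
      have h2 : 2 * (∑ j : Fin d, |θ j| + |b|) / c ≤ X := hX3.trans (by exact_mod_cast hXd)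
      rw [div_le_iff₀ hc] at h2
      have h3 : (X : ℝ) ≤ R := by rw [hR]; nlinarith
      nlinarith
    have hRd : 0 < R ^ d := by positivity
    have h3 : (∑ j : Fin d, |θ j| + |b|) * R ^ d ≤ c * R / 2 * R ^ d :=
      mul_le_mul_of_nonneg_right (by linarith) hRd.le
    have h4 : c * R / 2 * R ^ d = c * R ^ (d + 1) / 2 := by ring
    have h5 : (C1 + 1) * (X : ℝ) ^ (d + 1) ≤ c * R ^ (d + 1) / 2 := by
      have h6 : R ^ (d + 1) = (C0 : ℝ) ^ (d + 1) * (X : ℝ) ^ (d + 1) := by rw [hR, mul_pow]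
      rw [h6]
      have h7 : (C0 : ℝ) ≤ (C0 : ℝ) ^ (d + 1) := le_self_pow₀ hC01r (by omega)
      have h8 : C1 + 1 ≤ c * (C0 : ℝ) ^ (d + 1) / 2 := by nlinarith
      have h9 : 0 < (X : ℝ) ^ (d + 1) := by positivity
      nlinarith
    linarith
  have hb : PP d c b θ 0 ≤ M := by
    have h2 : PP d c b θ 0 = b := by
      unfold PP
      simp
    rw [h2]
    have h3 : (X : ℝ) ≤ (X : ℝ) ^ (d + 1) := le_self_pow₀ hXr (by omega)
    have h4 : |b| ≤ X := (le_max_left _ _).trans hXcr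
    linarith [le_abs_self b]
  -- the point `c1 X` has a value at most `M`
  have hc1X : 1 ≤ c1 * X := by
    have h2 : 1 / c1 ≤ X := (le_max_right _ _).trans hXcr
    rw [div_le_iff₀ hc10] at h2
    linarith
  have hc1M : PP d c b θ (c1 * X) ≤ M := by
    refine (PP_up d c b θ hc hc1X).trans (le_trans ?_ hM1)
    rw [mul_pow]
    have h2 : c1 ^ (d + 1) ≤ c1 := pow_le_of_le_one hc10.le hc11 (by omega)
    have h3 : (c + ∑ j : Fin d, |θ j| + |b|) * c1 ^ (d + 1) ≤ 1 := by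
      refine le_trans (mul_le_mul_of_nonneg_left h2 ?_) hc12
      have := abs_nonneg b
      positivity
    have h4 : 0 < (X : ℝ) ^ (d + 1) := by positivity
    calc (c + ∑ j : Fin d, |θ j| + |b|) * (c1 ^ (d + 1) * (X : ℝ) ^ (d + 1)) =
          (c + ∑ j : Fin d, |θ j| + |b|) * c1 ^ (d + 1) * (X : ℝ) ^ (d + 1) := by ring
      _ ≤ 1 * (X : ℝ) ^ (d + 1) := mul_le_mul_of_nonneg_right h3 h4.le
      _ = (X : ℝ) ^ (d + 1) := one_mul _
  have hc1R : c1 * X ≤ R := by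
    rw [hR]
    exact mul_le_mul_of_nonneg_right (hc11.trans hC01r) hXp.le
  -- the last point with value at most `M`
  have hW0 : (0 : ℝ) ≤ W := Nat.cast_nonneg _
  have hcont := PP_cont d c b θ
  obtain ⟨y₁, hy₁, hy₁'⟩ := (isCompact_Icc.inter_right (isClosed_le hcont continuous_const) :
    IsCompact (Set.Icc (0 : ℝ) R ∩ {y | PP d c b θ y ≤ (M : ℝ)})).exists_isGreatest
    ⟨0, ⟨le_refl _, by linarith⟩, hb⟩
  have hy₁I := hy₁.1
  have hy₁M : PP d c b θ y₁ ≤ M := hy₁.2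
  have hy₁c : c1 * X ≤ y₁ := hy₁' ⟨⟨by positivity, hc1R⟩, hc1M⟩
  have hlast : ∀ y, y₁ < y → y ≤ R → (M : ℝ) < PP d c b θ y := by
    intro y h2 h3
    by_contra hcon
    push Not at hcon
    have h4 := hy₁' ⟨⟨hy₁I.1.trans h2.le, h3⟩, hcon⟩
    linarith
  -- the first point with value at least `M + W`
  obtain ⟨y₂, hy₂, hy₂'⟩ := (isCompact_Icc.inter_right (isClosed_le continuous_const hcont) :
    IsCompact (Set.Icc y₁ R ∩ {y | (M : ℝ) + W ≤ PP d c b θ y})).exists_isLeast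
    ⟨R, ⟨hy₁I.2, le_refl _⟩, hPR⟩
  have hy₂I := hy₂.1
  have hy₂M : (M : ℝ) + W ≤ PP d c b θ y₂ := hy₂.2
  have hfirst : ∀ y, y₁ ≤ y → y < y₂ → PP d c b θ y < (M : ℝ) + W := by
    intro y h2 h3
    by_contra hcon
    push Not at hcon
    have h4 := hy₂' ⟨⟨h2, h3.le.trans hy₂I.2⟩, hcon⟩
    linarith
  -- the length of the interval
  have hlen : (W : ℝ) ≤ C3 * (X : ℝ) ^ d * (y₂ - y₁) := by
    have h2 := (le_abs_self _).trans (PP_lip d c b θ hy₁I.1 hy₂I.1 hy₂I.2 hR1)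
    have h3 : LC d c θ * R ^ d = C3 * (X : ℝ) ^ d := by
      rw [hR, hC3, mul_pow]
      ring
    rw [h3] at h2
    linarith
  -- the integers of the interval
  obtain ⟨A', hA'⟩ : ∃ A' : ℕ, A' = ⌊y₁⌋₊ + 1 := ⟨_, rfl⟩
  obtain ⟨L', hL'⟩ : ∃ L' : ℕ, L' = ⌈y₂⌉₊ - A' := ⟨_, rfl⟩
  have hceil : ⌈y₂⌉₊ ≤ C0 * X := by
    apply Nat.ceil_le.2
    rw [hR] at hy₂I
    push_cast
    exact hy₂I.2
  have hfl : ⌊y₁⌋₊ ≤ C0 * X := by
    have h2 : (⌊y₁⌋₊ : ℝ) ≤ y₁ := Nat.floor_le hy₁I.1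
    have h3 : (⌊y₁⌋₊ : ℝ) ≤ ((C0 * X : ℕ) : ℝ) := by
      push_cast
      rw [← hR]
      exact h2.trans hy₁I.2
    exact_mod_cast h3
  have hAL : A' + L' ≤ (C0 + 1) * X := by
    have h2 : (C0 + 1) * X = C0 * X + X := by ring
    rw [h2]
    omega
  have hL'r : y₂ - y₁ - 1 ≤ L' := by
    have h2 : (⌈y₂⌉₊ : ℝ) ≤ (L' : ℝ) + A' := by
      have : ⌈y₂⌉₊ ≤ L' + A' := by omega
      exact_mod_cast this
    have h3 := Nat.le_ceil y₂
    have h4 : (⌊y₁⌋₊ : ℝ) ≤ y₁ := Nat.floor_le hy₁I.1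
    have h5 : (A' : ℝ) = (⌊y₁⌋₊ : ℝ) + 1 := by rw [hA']; push_cast; ring
    linarith
  have hA'r : c1 * X ≤ A' := by
    have h7 := Nat.lt_floor_add_one y₁
    have h8 : (A' : ℝ) = (⌊y₁⌋₊ : ℝ) + 1 := by rw [hA']; push_cast; ring
    linarith
  -- the inequality for the length
  have hXd0 : 0 < (X : ℝ) ^ d := by positivity
  have h4 : (X : ℝ) ^ (1 - σ₁ / 2) ≤ C3 * (y₂ - y₁) := by
    have h5 : (X : ℝ) ^ ((d : ℝ) + 1 - σ₁ / 2) = (X : ℝ) ^ d * (X : ℝ) ^ (1 - σ₁ / 2) := by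
      rw [← Real.rpow_natCast, ← Real.rpow_add hXp]
      congr 1
      ring
    rw [h5] at hW1
    have h6 : (X : ℝ) ^ d * (X : ℝ) ^ (1 - σ₁ / 2) ≤ (X : ℝ) ^ d * (C3 * (y₂ - y₁)) := by
      refine hW1.trans (hlen.trans (le_of_eq ?_))
      ring
    exact le_of_mul_le_mul_left h6 hXd0
  have h5 : 4 * C3 * (X : ℝ) ^ (1 - σ₁) ≤ (X : ℝ) ^ (1 - σ₁ / 2) := by
    have h6 : (X : ℝ) ^ (1 - σ₁ / 2) = (X : ℝ) ^ (σ₁ / 2) * (X : ℝ) ^ (1 - σ₁) := by
      rw [← Real.rpow_add hXp]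
      congr 1
      ring
    rw [h6]
    exact mul_le_mul_of_nonneg_right (h1 X hXb) (Real.rpow_nonneg hXp.le _)
  have h6 : 1 ≤ (X : ℝ) ^ (1 - σ₁) := Real.one_le_rpow hXr (by linarith)
  have h7 : 4 * (X : ℝ) ^ (1 - σ₁) ≤ y₂ - y₁ := by
    have h8 : C3 * (4 * (X : ℝ) ^ (1 - σ₁)) ≤ C3 * (y₂ - y₁) := by linarith
    exact le_of_mul_le_mul_left h8 hC3p
  have h2 := h0 X A' L' hXa hAL hA'r (by linarith)
  -- the sum over the interval is part of the sum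
  have h3 : ∑ n ∈ range L', lam (A' + n) * Real.sin (Real.pi * PP d c b θ ((A' + n : ℕ) : ℝ)) ^ 2 ≤
      ∑ l ∈ (range (C0 * X)).filter
      (fun l : ℕ => 0 < l ∧ M ≤ ⌊PP d c b θ (l : ℝ)⌋ ∧ ⌊PP d c b θ (l : ℝ)⌋ < M + W),
        lam l * Real.sin (Real.pi * PP d c b θ (l : ℝ)) ^ 2 := by
    have e1 : ∑ n ∈ range L', lam (A' + n) * Real.sin (Real.pi * PP d c b θ ((A' + n : ℕ) : ℝ)) ^ 2 =
        ∑ l ∈ (range L').image (fun n => A' + n),
          lam l * Real.sin (Real.pi * PP d c b θ (l : ℝ)) ^ 2 := by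
      rw [sum_image]
      intro x _ y _ hxy
      simpa using hxy
    rw [e1]
    refine sum_le_sum_of_subset_of_nonneg ?_ (fun l _ _ => mul_nonneg (lam_nonneg l) (sq_nonneg _))
    intro l hl
    rw [mem_image] at hl
    obtain ⟨n, hn, rfl⟩ := hl
    rw [mem_range] at hn
    have h4 : A' + n < ⌈y₂⌉₊ := by omega
    have h5 : ((A' + n : ℕ) : ℝ) < y₂ := Nat.lt_ceil.1 h4
    have h6 : y₁ < ((A' + n : ℕ) : ℝ) := by
      have h7 := Nat.lt_floor_add_one y₁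
      have h8 : (A' : ℝ) = (⌊y₁⌋₊ : ℝ) + 1 := by rw [hA']; push_cast; ring
      push_cast
      have : (0 : ℝ) ≤ n := Nat.cast_nonneg _
      linarith
    rw [mem_filter, mem_range]
    refine ⟨by omega, by omega, ?_, ?_⟩
    · exact Int.le_floor.2 (hlast _ h6 (h5.le.trans hy₂I.2)).le
    · rw [Int.floor_lt]
      push_cast
      have h9 := hfirst _ h6.le h5
      push_cast at h9
      exact h9
  refine le_trans ?_ h3
  refine le_trans ?_ h2
  have h8 : (y₂ - y₁) / 2 ≤ L' := by linarith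
  have h9 : κ₁ / (2 * C3) * W / (X : ℝ) ^ d ≤ κ₁ * ((y₂ - y₁) / 2) := by
    rw [div_le_iff₀ hXd0, div_mul_eq_mul_div, div_le_iff₀ (by positivity)]
    have e1 : κ₁ * ((y₂ - y₁) / 2) * (X : ℝ) ^ d * (2 * C3) = κ₁ * (C3 * (X : ℝ) ^ d * (y₂ - y₁)) := by
      ring
    rw [e1]
    exact mul_le_mul_of_nonneg_left hlen hκ₁.le
  have h10 : κ₁ * ((y₂ - y₁) / 2) ≤ κ₁ * L' := mul_le_mul_of_nonneg_left h8 hκ₁.le
  linarith

end Pool.Agent.N46.PW
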