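import Pool.Agent.N371.UB.Rect

/-!
# Signs, eight directions and the discrete Hopf argument
-/

set_option autoImplicit false

namespace Pool.Agent.N46

open Pool.Agent.N371.UB

/-- sign pairs -/
abbrev SP := SignType × SignType

/-- the direction index of a sign pair -/
def ix : SignType → SignType → ℤ
  | .pos, .zero => 0
  | .pos, .pos => 1
  | .zero, .pos => 2
  | .neg, .pos => 3
  | .neg, .zero => 4
  | .neg, .neg => 5
  | .zero, .neg => 6
  | .pos, .neg => 7
  | .zero, .zero => 0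

/-- representative mod 8 in `{-3, ..., 4}` -/
def rep8 (n : ℤ) : ℤ := (n + 3) % 8 - 3

/-- the change of direction between two sign pairs -/
def dd (a b : SP) : ℤ := rep8 (ix b.1 b.2 - ix a.1 a.2)

/-- the sign pair of a vector -/
noncomputable def sg (u : ℝ × ℝ) : SP := (SignType.sign u.1, SignType.sign u.2)

/-- the change of direction between two vectors -/
noncomputable def del (u v : ℝ × ℝ) : ℤ := dd (sg u) (sg v)

/-- Four vectors in one open coordinate half plane. -/
def Same (a b c e : ℝ × ℝ) : Prop :=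
  (0 < a.1 ∧ 0 < b.1 ∧ 0 < c.1 ∧ 0 < e.1) ∨ (a.1 < 0 ∧ b.1 < 0 ∧ c.1 < 0 ∧ e.1 < 0) ∨
  (0 < a.2 ∧ 0 < b.2 ∧ 0 < c.2 ∧ 0 < e.2) ∨ (a.2 < 0 ∧ b.2 < 0 ∧ c.2 < 0 ∧ e.2 < 0)

/-- lift in the right half plane -/
def lR : SignType → ℤ
  | .pos => 1
  | .zero => 0
  | .neg => -1

lemma dd_right : ∀ a b : SignType, dd (1, a) (1, b) = lR b - lR a := by decide
lemma dd_left : ∀ a b : SignType, dd (-1, a) (-1, b) = lR a - lR b := by decide
lemma dd_up : ∀ a b : SignType, dd (a, 1) (b, 1) = lR a - lR b := by decide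
lemma dd_down : ∀ a b : SignType, dd (a, -1) (b, -1) = lR b - lR a := by decide

lemma dd_neg : ∀ a b : SP, dd (-a.1, -a.2) (-b.1, -b.2) = dd a b ∨
    (a = (0, 0) ∨ b = (0, 0)) := by decide

lemma cell {a b c e : ℝ × ℝ} (h : Same a b c e) : del a b + del b e = del a c + del c e := by
  unfold del sg
  rcases h with ⟨h1, h2, h3, h4⟩ | ⟨h1, h2, h3, h4⟩ | ⟨h1, h2, h3, h4⟩ | ⟨h1, h2, h3, h4⟩
  · rw [sign_pos h1, sign_pos h2, sign_pos h3, sign_pos h4]
    simp only [dd_right]
    ring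
  · rw [sign_neg h1, sign_neg h2, sign_neg h3, sign_neg h4]
    simp only [dd_left]
    ring
  · rw [sign_pos h1, sign_pos h2, sign_pos h3, sign_pos h4]
    simp only [dd_up]
    ring
  · rw [sign_neg h1, sign_neg h2, sign_neg h3, sign_neg h4]
    simp only [dd_down]
    ring

lemma del_neg {a b : ℝ × ℝ} (ha : a ≠ 0) (hb : b ≠ 0) : del (-a) (-b) = del a b := by
  have h1 : sg a ≠ (0, 0) := by
    intro h
    apply ha
    unfold sg at h
    rw [Prod.mk.injEq, sign_eq_zero_iff, sign_eq_zero_iff] at h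
    exact Prod.ext h.1 h.2
  have h2 : sg b ≠ (0, 0) := by
    intro h
    apply hb
    unfold sg at h
    rw [Prod.mk.injEq, sign_eq_zero_iff, sign_eq_zero_iff] at h
    exact Prod.ext h.1 h.2
  have h3 : ∀ u : ℝ × ℝ, sg (-u) = (-(sg u).1, -(sg u).2) := by
    intro u
    unfold sg
    simp [Left.sign_neg]
  unfold del
  rw [h3, h3]
  rcases dd_neg (sg a) (sg b) with h | h | h
  · exact h
  · exact absurd h h1
  · exact absurd h h2

lemma del_same {a b : ℝ × ℝ} (h : sg a = sg b) : del a b = 0 := by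
  unfold del dd
  rw [h, sub_self]
  decide

/-! ### The grid argument -/

lemma grid (N : ℕ) (hN : 2 ≤ N) (E V : ℕ → ℕ → ℤ) (t : ℕ → ℤ)
    (hcell : ∀ i j, i + 2 ≤ j → j ≤ N → ¬ (i = 0 ∧ j = N) →
      V i j + E (i + 1) j = E i j + V i (j + 1))
    (htri : ∀ i, i < N → E i (i + 1) + V i (i + 2) = 2 * t i)
    (hc1 : V 0 N = 0) (hc2 : E 1 N = 0)
    (hsym : ∀ i, 1 ≤ i → i < N → V i (N + 1) = E 0 i) :
    ∑ j ∈ Finset.Ico 1 N, E 0 j = ∑ i ∈ Finset.range N, t i := by
  -- the sum along a row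
  have row : ∀ i, ∀ m, i + 2 ≤ m → (m ≤ N + 1) → (i = 0 → m ≤ N) →
      V i (i + 2) + ∑ j ∈ Finset.Ico (i + 2) m, E (i + 1) j
        = ∑ j ∈ Finset.Ico (i + 2) m, E i j + V i m := by
    intro i m hm
    induction m, hm using Nat.le_induction with
    | base => intro _ _; simp
    | succ m hm ih =>
      intro h1 h2
      have ih' := ih (by omega) (by omega)
      rw [Finset.sum_Ico_succ_top hm, Finset.sum_Ico_succ_top hm]
      have := hcell i m hm (by omega) (by omega)
      linarith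
  set R : ℕ → ℤ := fun i => ∑ j ∈ Finset.Ico (i + 1) (N + 1), E i j with hR
  have claimA : ∀ i, 1 ≤ i → i < N → R i + V i (N + 1) = 2 * t i + R (i + 1) := by
    intro i h1 h2
    have h3 := row i (N + 1) (by omega) le_rfl (by omega)
    have h4 := htri i h2
    have h5 : R i = E i (i + 1) + ∑ j ∈ Finset.Ico (i + 2) (N + 1), E i j := by
      rw [hR]
      exact Finset.sum_eq_sum_Ico_succ_bot (by omega) _
    rw [h5]
    have h6 : R (i + 1) = ∑ j ∈ Finset.Ico (i + 2) (N + 1), E (i + 1) j := rfl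
    rw [h6]
    linarith
  have claimS : ∀ m, 1 ≤ m → m ≤ N →
      R 1 + ∑ i ∈ Finset.Ico 1 m, V i (N + 1) = 2 * ∑ i ∈ Finset.Ico 1 m, t i + R m := by
    intro m hm
    induction m, hm using Nat.le_induction with
    | base => intro _; simp
    | succ m hm ih =>
      intro h1
      have ih' := ih (by omega)
      have h2 := claimA m hm (by omega)
      rw [Finset.sum_Ico_succ_top hm, Finset.sum_Ico_succ_top hm]
      linarith
  have h1 := claimS N (by omega) le_rfl
  have hRN : R N = 0 := by rw [hR]; simp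
  have hV : ∑ i ∈ Finset.Ico 1 N, V i (N + 1) = ∑ j ∈ Finset.Ico 1 N, E 0 j := by
    refine Finset.sum_congr rfl ?_
    intro i hi
    rw [Finset.mem_Ico] at hi
    exact hsym i hi.1 hi.2
  have h0 := row 0 N (by omega) (by omega) (fun _ => le_rfl)
  have h2 : ∑ j ∈ Finset.Ico 1 N, E 0 j = E 0 1 + ∑ j ∈ Finset.Ico 2 N, E 0 j :=
    Finset.sum_eq_sum_Ico_succ_bot (by omega) _
  have h3 : R 1 = ∑ j ∈ Finset.Ico 2 N, E 1 j + E 1 N := by
    rw [hR]
    exact Finset.sum_Ico_succ_top (by omega) _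
  have h4 := htri 0 (by omega)
  have h5 : ∑ i ∈ Finset.range N, t i = t 0 + ∑ i ∈ Finset.Ico 1 N, t i := by
    rw [Finset.range_eq_Ico]
    exact Finset.sum_eq_sum_Ico_succ_bot (by omega) _
  simp only [zero_add] at h0 h4
  rw [hV, hRN] at h1
  linarith

end Pool.Agent.N46
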