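import Pool.Agent.N46.Turn1

/-!
# Axis-parallel segments
-/

set_option autoImplicit false

namespace Pool.Agent.N46

open Pool.Agent.N371.UB

lemma mem_seg {a b : ℝ × ℝ} (h : a.1 = b.1 ∨ a.2 = b.2) (z : ℝ × ℝ) :
    z ∈ segment ℝ a b ↔ (min a.1 b.1 ≤ z.1 ∧ z.1 ≤ max a.1 b.1) ∧
      (min a.2 b.2 ≤ z.2 ∧ z.2 ≤ max a.2 b.2) := by
  obtain ⟨a1, a2⟩ := a
  obtain ⟨b1, b2⟩ := b
  obtain ⟨z1, z2⟩ := z
  simp only at h
  rcases h with h | h
  · subst h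
    rw [← Prod.image_mk_segment_right, segment_eq_uIcc]
    simp only [Set.mem_image, Prod.mk.injEq, Set.uIcc, Set.mem_Icc, min_self, max_self]
    constructor
    · rintro ⟨y, hy, h1, h2⟩
      subst h1 h2
      exact ⟨⟨le_rfl, le_rfl⟩, hy⟩
    · rintro ⟨⟨h1, h2⟩, h3⟩
      exact ⟨z2, h3, le_antisymm h1 h2, rfl⟩
  · subst h
    rw [← Prod.image_mk_segment_left, segment_eq_uIcc]
    simp only [Set.mem_image, Prod.mk.injEq, Set.uIcc, Set.mem_Icc, min_self, max_self]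
    constructor
    · rintro ⟨y, hy, h1, h2⟩
      subst h1 h2
      exact ⟨hy, ⟨le_rfl, le_rfl⟩⟩
    · rintro ⟨h3, ⟨h1, h2⟩⟩
      exact ⟨z1, h3, rfl, le_antisymm h1 h2⟩

/-- Separation of two disjoint axis-parallel segments. -/
lemma sep {a a' b b' : ℝ × ℝ} (ha : a.1 = a'.1 ∨ a.2 = a'.2) (hb : b.1 = b'.1 ∨ b.2 = b'.2)
    (h : ∀ z, z ∈ segment ℝ a a' → z ∉ segment ℝ b b') :
    Same (b - a) (b - a') (b' - a) (b' - a') := by
  by_contra hcon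
  unfold Same at hcon
  simp only [Prod.fst_sub, Prod.snd_sub, sub_pos, sub_neg] at hcon
  set z : ℝ × ℝ := (max (min a.1 a'.1) (min b.1 b'.1), max (min a.2 a'.2) (min b.2 b'.2)) with hz
  apply h z
  · rw [mem_seg ha]
    simp only [hz]
    push Not at hcon
    obtain ⟨h1, h2, h3, h4⟩ := hcon
    refine ⟨⟨le_max_left _ _, max_le min_le_max ?_⟩, ⟨le_max_left _ _, max_le min_le_max ?_⟩⟩
    · by_contra hc
      push Not at hc
      rw [max_lt_iff, lt_min_iff, lt_min_iff] at hc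
      exact absurd (h1 hc.1.1 hc.2.1 hc.1.2) (not_le.mpr hc.2.2)
    · by_contra hc
      push Not at hc
      rw [max_lt_iff, lt_min_iff, lt_min_iff] at hc
      exact absurd (h3 hc.1.1 hc.2.1 hc.1.2) (not_le.mpr hc.2.2)
  · rw [mem_seg hb]
    simp only [hz]
    push Not at hcon
    obtain ⟨h1, h2, h3, h4⟩ := hcon
    refine ⟨⟨le_max_right _ _, max_le ?_ min_le_max⟩, ⟨le_max_right _ _, max_le ?_ min_le_max⟩⟩
    · by_contra hc
      push Not at hc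
      rw [max_lt_iff, lt_min_iff, lt_min_iff] at hc
      exact absurd (h2 hc.1.1 hc.1.2 hc.2.1) (not_le.mpr hc.2.2)
    · by_contra hc
      push Not at hc
      rw [max_lt_iff, lt_min_iff, lt_min_iff] at hc
      exact absurd (h4 hc.1.1 hc.1.2 hc.2.1) (not_le.mpr hc.2.2)

/-- A point off an axis-parallel segment is separated from it. -/
lemma sep_pt {a a' z : ℝ × ℝ} (ha : a.1 = a'.1 ∨ a.2 = a'.2) (h : z ∉ segment ℝ a a') :
    (0 < (a - z).1 ∧ 0 < (a' - z).1) ∨ ((a - z).1 < 0 ∧ (a' - z).1 < 0) ∨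
    (0 < (a - z).2 ∧ 0 < (a' - z).2) ∨ ((a - z).2 < 0 ∧ (a' - z).2 < 0) := by
  rw [mem_seg ha] at h
  simp only [Prod.fst_sub, Prod.snd_sub, sub_pos, sub_neg]
  by_contra hcon
  push Not at hcon
  obtain ⟨h1, h2, h3, h4⟩ := hcon
  apply h
  rw [min_le_iff, le_max_iff, min_le_iff, le_max_iff]
  refine ⟨⟨?_, ?_⟩, ⟨?_, ?_⟩⟩
  · by_contra hc
    push Not at hc
    exact absurd (h1 hc.1) (not_le.mpr hc.2)
  · by_contra hc
    push Not at hc
    exact absurd (h2 hc.1) (not_le.mpr hc.2)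
  · by_contra hc
    push Not at hc
    exact absurd (h3 hc.1) (not_le.mpr hc.2)
  · by_contra hc
    push Not at hc
    exact absurd (h4 hc.1) (not_le.mpr hc.2)

/-- Two consecutive axis vectors which are not opposite. -/
def Cons (u w : ℝ × ℝ) : Prop :=
  (u.1 = 0 ∨ u.2 = 0) ∧ (w.1 = 0 ∨ w.2 = 0) ∧ u ≠ 0 ∧ w ≠ 0 ∧
  ¬ (0 < u.1 ∧ w.1 < 0) ∧ ¬ (u.1 < 0 ∧ 0 < w.1) ∧ ¬ (0 < u.2 ∧ w.2 < 0) ∧ ¬ (u.2 < 0 ∧ 0 < w.2)

end Pool.Agent.N46
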