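import Pool.Agent.N46.Turn2

/-!
# The total turning equals the index sum around the midpoint of a side
-/

set_option autoImplicit false

namespace Pool.Agent.N46

open Pool.Agent.N371.UB

lemma tri {u w : ℝ × ℝ} (h : Cons u w) : del u (u + w) + del (u + w) w = 2 * turn u w := by
  obtain ⟨hu, hw, hu0, hw0, h1, h2, h3, h4⟩ := h
  obtain ⟨u1, u2⟩ := u
  obtain ⟨w1, w2⟩ := w
  simp only at hu hw h1 h2 h3 h4
  have hu0' : u1 ≠ 0 ∨ u2 ≠ 0 := by
    by_contra hc
    push Not at hc
    exact hu0 (Prod.ext hc.1 hc.2)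
  have hw0' : w1 ≠ 0 ∨ w2 ≠ 0 := by
    by_contra hc
    push Not at hc
    exact hw0 (Prod.ext hc.1 hc.2)
  unfold del sg turn
  rcases hu with hu | hu <;> rcases hw with hw | hw <;> subst hu <;> subst hw <;>
    simp only [Prod.mk_add_mk, zero_add, add_zero, zero_mul, mul_zero, sub_zero, zero_sub,
      sign_zero]
  · have hu2 : u2 ≠ 0 := by simpa using hu0'
    have hw2 : w2 ≠ 0 := by simpa using hw0'
    rcases lt_or_gt_of_ne hu2 with hu | hu <;> rcases lt_or_gt_of_ne hw2 with hw | hw
    · rw [sign_neg hu, sign_neg hw, sign_neg (add_neg hu hw)]; decide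
    · exact absurd ⟨hu, hw⟩ h4
    · exact absurd ⟨hu, hw⟩ h3
    · rw [sign_pos hu, sign_pos hw, sign_pos (add_pos hu hw)]; decide
  · have hu2 : u2 ≠ 0 := by simpa using hu0'
    have hw1 : w1 ≠ 0 := by simpa using hw0'
    rcases lt_or_gt_of_ne hu2 with hu | hu <;> rcases lt_or_gt_of_ne hw1 with hw | hw
    · rw [sign_neg hu, sign_neg hw, sign_neg (by nlinarith)]; decide
    · rw [sign_neg hu, sign_pos hw, sign_pos (by nlinarith)]; decide
    · rw [sign_pos hu, sign_neg hw, sign_pos (by nlinarith)]; decide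
    · rw [sign_pos hu, sign_pos hw, sign_neg (by nlinarith)]; decide
  · have hu1 : u1 ≠ 0 := by simpa using hu0'
    have hw2 : w2 ≠ 0 := by simpa using hw0'
    rcases lt_or_gt_of_ne hu1 with hu | hu <;> rcases lt_or_gt_of_ne hw2 with hw | hw
    · rw [sign_neg hu, sign_neg hw, sign_pos (by nlinarith)]; decide
    · rw [sign_neg hu, sign_pos hw, sign_neg (by nlinarith)]; decide
    · rw [sign_pos hu, sign_neg hw, sign_neg (by nlinarith)]; decide
    · rw [sign_pos hu, sign_pos hw, sign_pos (by nlinarith)]; decide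
  · have hu1 : u1 ≠ 0 := by simpa using hu0'
    have hw1 : w1 ≠ 0 := by simpa using hw0'
    rcases lt_or_gt_of_ne hu1 with hu | hu <;> rcases lt_or_gt_of_ne hw1 with hw | hw
    · rw [sign_neg hu, sign_neg hw, sign_neg (add_neg hu hw)]; decide
    · exact absurd ⟨hu, hw⟩ h2
    · exact absurd ⟨hu, hw⟩ h1
    · rw [sign_pos hu, sign_pos hw, sign_pos (add_pos hu hw)]; decide

lemma sg_smul {c : ℝ} (hc : 0 < c) (u : ℝ × ℝ) : sg (c • u) = sg u := by
  unfold sg
  simp only [Prod.smul_fst, Prod.smul_snd, smul_eq_mul, sign_mul, sign_pos hc, one_mul]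

lemma turn_smul {c c' : ℝ} (hc : 0 < c) (hc' : 0 < c') (u w : ℝ × ℝ) :
    turn (c • u) (c' • w) = turn u w := by
  unfold turn
  simp only [Prod.smul_fst, Prod.smul_snd, smul_eq_mul]
  have : c * u.1 * (c' * w.2) - c * u.2 * (c' * w.1) = (c * c') * (u.1 * w.2 - u.2 * w.1) := by
    ring
  rw [this, sign_mul, sign_pos (mul_pos hc hc'), one_mul]

lemma neg_of {c x : ℝ} (hc : 0 < c) (h : c * x < 0) : x < 0 := by
  by_contra hx
  push Not at hx
  exact absurd h (not_lt.mpr (mul_nonneg hc.le hx))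

lemma cons_smul {c c' : ℝ} (hc : 0 < c) (hc' : 0 < c') {u w : ℝ × ℝ} (h : Cons u w) :
    Cons (c • u) (c' • w) := by
  obtain ⟨hu, hw, hu0, hw0, h1, h2, h3, h4⟩ := h
  refine ⟨?_, ?_, smul_ne_zero hc.ne' hu0, smul_ne_zero hc'.ne' hw0, ?_, ?_, ?_, ?_⟩
  · rcases hu with hu | hu
    · left; simp [hu]
    · right; simp [hu]
  · rcases hw with hw | hw
    · left; simp [hw]
    · right; simp [hw]
  all_goals
    simp only [Prod.smul_fst, Prod.smul_snd, smul_eq_mul]
    rintro ⟨ha, hb⟩
  · exact h1 ⟨(mul_pos_iff_of_pos_left hc).mp ha, neg_of hc' hb⟩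
  · exact h2 ⟨neg_of hc ha, (mul_pos_iff_of_pos_left hc').mp hb⟩
  · exact h3 ⟨(mul_pos_iff_of_pos_left hc).mp ha, neg_of hc' hb⟩
  · exact h4 ⟨neg_of hc ha, (mul_pos_iff_of_pos_left hc').mp hb⟩

/-- the midpoint -/
noncomputable def mid (a b : ℝ × ℝ) : ℝ × ℝ := ((a.1 + b.1) / 2, (a.2 + b.2) / 2)

lemma mid_axr {a b : ℝ × ℝ} (h : a.1 = b.1 ∨ a.2 = b.2) :
    (mid a b).1 = b.1 ∨ (mid a b).2 = b.2 := by
  unfold mid
  rcases h with h | h
  · left; simp only; linarith
  · right; simp only; linarith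

lemma mid_axl {a b : ℝ × ℝ} (h : a.1 = b.1 ∨ a.2 = b.2) :
    a.1 = (mid a b).1 ∨ a.2 = (mid a b).2 := by
  unfold mid
  rcases h with h | h
  · left; simp only; linarith
  · right; simp only; linarith

lemma seg_midr {a b : ℝ × ℝ} (h : a.1 = b.1 ∨ a.2 = b.2) (hne : a ≠ b) {z : ℝ × ℝ}
    (hz : z ∈ segment ℝ (mid a b) b) : z ∈ segment ℝ a b ∧ z ≠ a := by
  rw [mem_seg (mid_axr h)] at hz
  rw [mem_seg h]
  have hne' : a.1 ≠ b.1 ∨ a.2 ≠ b.2 := by
    by_contra hc
    push Not at hc
    exact hne (Prod.ext hc.1 hc.2)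
  simp only [mid] at hz
  obtain ⟨⟨h1, h2⟩, h3, h4⟩ := hz
  refine ⟨⟨⟨?_, ?_⟩, ?_, ?_⟩, ?_⟩
  · rcases le_total a.1 b.1 with hab | hab
    · rw [min_eq_left hab]; rw [min_eq_left (by linarith)] at h1; linarith
    · rw [min_eq_right hab]; rw [min_eq_right (by linarith)] at h1; linarith
  · rcases le_total a.1 b.1 with hab | hab
    · rw [max_eq_right hab]; rw [max_eq_right (by linarith)] at h2; linarith
    · rw [max_eq_left hab]; rw [max_eq_left (by linarith)] at h2; linarith
  · rcases le_total a.2 b.2 with hab | hab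
    · rw [min_eq_left hab]; rw [min_eq_left (by linarith)] at h3; linarith
    · rw [min_eq_right hab]; rw [min_eq_right (by linarith)] at h3; linarith
  · rcases le_total a.2 b.2 with hab | hab
    · rw [max_eq_right hab]; rw [max_eq_right (by linarith)] at h4; linarith
    · rw [max_eq_left hab]; rw [max_eq_left (by linarith)] at h4; linarith
  · rintro rfl
    rcases hne' with hne' | hne'
    · rcases lt_or_gt_of_ne hne' with hab | hab
      · rw [min_eq_left (by linarith)] at h1; linarith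
      · rw [max_eq_left (by linarith)] at h2; linarith
    · rcases lt_or_gt_of_ne hne' with hab | hab
      · rw [min_eq_left (by linarith)] at h3; linarith
      · rw [max_eq_left (by linarith)] at h4; linarith

lemma mid_comm (a b : ℝ × ℝ) : mid a b = mid b a := by
  unfold mid
  rw [add_comm a.1, add_comm a.2]

lemma seg_midl {a b : ℝ × ℝ} (h : a.1 = b.1 ∨ a.2 = b.2) (hne : a ≠ b) {z : ℝ × ℝ}
    (hz : z ∈ segment ℝ a (mid a b)) : z ∈ segment ℝ a b ∧ z ≠ b := by
  rw [segment_symm, mid_comm] at hz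
  rw [segment_symm]
  exact seg_midr (by rcases h with h | h; exacts [Or.inl h.symm, Or.inr h.symm]) hne.symm hz

variable {ι : Type} [Fintype ι] {s : Equiv.Perm ι} {p : ι → ℝ × ℝ}

lemma cycleOn (h : RectPoly s p) : s.IsCycleOn (↑(Finset.univ : Finset ι)) := by
  refine ⟨?_, ?_⟩
  · rw [Finset.coe_univ]
    exact Set.bijOn_univ.mpr s.bijective
  · intro x _ y _
    obtain ⟨n, hn⟩ := h.cyc x y
    exact ⟨n, by simpa using hn⟩

lemma pow_eq_iff (h : RectPoly s p) (x0 : ι) (i j : ℕ) :
    (s ^ i) x0 = (s ^ j) x0 ↔ i ≡ j [MOD Fintype.card ι] := by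
  rw [(cycleOn h).pow_apply_eq_pow_apply (Finset.mem_univ x0), Finset.card_univ]

lemma pow_card (h : RectPoly s p) (x0 : ι) : (s ^ (Fintype.card ι)) x0 = x0 := by
  have := (pow_eq_iff h x0 (Fintype.card ι) 0).mpr (by simp [Nat.ModEq])
  simpa using this

lemma two_le_card (h : RectPoly s p) (x0 : ι) : 2 ≤ Fintype.card ι := by
  by_contra hc
  push Not at hc
  have h1 : Fintype.card ι ≤ 1 := by omega
  have := Fintype.card_le_one_iff.mp h1 x0 (s x0)
  exact h.ne x0 (by rw [← this])

lemma pow_succ_apply (s : Equiv.Perm ι) (x0 : ι) (i : ℕ) : (s ^ (i + 1)) x0 = s ((s ^ i) x0) := by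
  rw [pow_succ', Equiv.Perm.mul_apply]

/-- side vectors -/
noncomputable def sv (s : Equiv.Perm ι) (p : ι → ℝ × ℝ) (y : ι) : ℝ × ℝ := p (s y) - p y

lemma cons_sv (h : RectPoly s p) (y : ι) : Cons (sv s p y) (sv s p (s y)) := by
  have hax := h.ax y
  have hax' := h.ax (s y)
  have key : ∀ z, z ∈ segment ℝ (p y) (p (s y)) → z ∈ segment ℝ (p (s y)) (p (s (s y))) →
    z = p (s y) := h.adj y
  simp only [mem_seg hax, mem_seg hax'] at key
  unfold Cons sv
  simp only [Prod.fst_sub, Prod.snd_sub, sub_pos, sub_neg, sub_eq_zero]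
  refine ⟨?_, ?_, ?_, ?_, ?_, ?_, ?_, ?_⟩
  · rcases hax with h | h
    · left; exact h.symm
    · right; exact h.symm
  · rcases hax' with h | h
    · left; exact h.symm
    · right; exact h.symm
  · exact (sub_ne_zero.mpr (h.ne y).symm)
  · exact (sub_ne_zero.mpr (h.ne (s y)).symm)
  · rintro ⟨h1, h2⟩
    have h3 : (p y).2 = (p (s y)).2 := by rcases hax with h | h; exacts [absurd h h1.ne, h]
    have h4 : (p (s y)).2 = (p (s (s y))).2 := by
      rcases hax' with h | h; exacts [absurd h h2.ne', h]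
    have := key (max (p y).1 (p (s (s y))).1, (p y).2)
      ⟨⟨by simp only; rw [min_eq_left h1.le]; exact le_max_left _ _,
        by simp only; rw [max_eq_right h1.le]; exact max_le h1.le h2.le⟩,
        by simp only; rw [← h3]; simp⟩
      ⟨⟨by simp only; rw [min_eq_right h2.le]; exact le_max_right _ _,
        by simp only; rw [max_eq_left h2.le]; exact max_le h1.le h2.le⟩,
        by simp only; rw [← h4, ← h3]; simp⟩
    have h5 := congrArg Prod.fst this
    simp only at h5
    exact absurd h5 (max_lt h1 h2).ne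
  · rintro ⟨h1, h2⟩
    have h3 : (p y).2 = (p (s y)).2 := by rcases hax with h | h; exacts [absurd h h1.ne', h]
    have h4 : (p (s y)).2 = (p (s (s y))).2 := by
      rcases hax' with h | h; exacts [absurd h h2.ne, h]
    have := key (min (p y).1 (p (s (s y))).1, (p y).2)
      ⟨⟨by simp only; rw [min_eq_right h1.le]; exact le_min h1.le h2.le,
        by simp only; rw [max_eq_left h1.le]; exact min_le_left _ _⟩,
        by simp only; rw [← h3]; simp⟩
      ⟨⟨by simp only; rw [min_eq_left h2.le]; exact le_min h1.le h2.le,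
        by simp only; rw [max_eq_right h2.le]; exact min_le_right _ _⟩,
        by simp only; rw [← h4, ← h3]; simp⟩
    have h5 := congrArg Prod.fst this
    simp only at h5
    exact absurd h5 (lt_min h1 h2).ne'
  · rintro ⟨h1, h2⟩
    have h3 : (p y).1 = (p (s y)).1 := by rcases hax with h | h; exacts [h, absurd h h1.ne]
    have h4 : (p (s y)).1 = (p (s (s y))).1 := by
      rcases hax' with h | h; exacts [h, absurd h h2.ne']
    have := key ((p y).1, max (p y).2 (p (s (s y))).2)
      ⟨by simp only; rw [← h3]; simp, ⟨by simp only; rw [min_eq_left h1.le]; exact le_max_left _ _,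
        by simp only; rw [max_eq_right h1.le]; exact max_le h1.le h2.le⟩⟩
      ⟨by simp only; rw [← h4, ← h3]; simp,
        ⟨by simp only; rw [min_eq_right h2.le]; exact le_max_right _ _,
        by simp only; rw [max_eq_left h2.le]; exact max_le h1.le h2.le⟩⟩
    have h5 := congrArg Prod.snd this
    simp only at h5
    exact absurd h5 (max_lt h1 h2).ne
  · rintro ⟨h1, h2⟩
    have h3 : (p y).1 = (p (s y)).1 := by rcases hax with h | h; exacts [h, absurd h h1.ne']
    have h4 : (p (s y)).1 = (p (s (s y))).1 := by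
      rcases hax' with h | h; exacts [h, absurd h h2.ne]
    have := key ((p y).1, min (p y).2 (p (s (s y))).2)
      ⟨by simp only; rw [← h3]; simp, ⟨by simp only; rw [min_eq_right h1.le]; exact le_min h1.le h2.le,
        by simp only; rw [max_eq_left h1.le]; exact min_le_left _ _⟩⟩
      ⟨by simp only; rw [← h4, ← h3]; simp,
        ⟨by simp only; rw [min_eq_left h2.le]; exact le_min h1.le h2.le,
        by simp only; rw [max_eq_right h2.le]; exact min_le_right _ _⟩⟩
    have h5 := congrArg Prod.snd this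
    simp only at h5
    exact absurd h5 (lt_min h1 h2).ne'

/-- The sequence of points: the midpoint of the side `x0`, the corners, the midpoint again. -/
noncomputable def PP (s : Equiv.Perm ι) (p : ι → ℝ × ℝ) (x0 : ι) (t : ℕ) : ℝ × ℝ :=
  if t = 0 ∨ t = Fintype.card ι + 1 then mid (p x0) (p (s x0)) else p ((s ^ t) x0)

lemma PP_zero (x0 : ι) : PP s p x0 0 = mid (p x0) (p (s x0)) := by simp [PP]

lemma PP_last (x0 : ι) : PP s p x0 (Fintype.card ι + 1) = mid (p x0) (p (s x0)) := by simp [PP]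

lemma PP_mid (x0 : ι) {t : ℕ} (h1 : 1 ≤ t) (h2 : t ≤ Fintype.card ι) :
    PP s p x0 t = p ((s ^ t) x0) := by
  unfold PP
  rw [if_neg (by omega)]

lemma mid_sub (a b : ℝ × ℝ) : b - mid a b = (1 / 2 : ℝ) • (b - a) := by
  unfold mid
  ext
  · simp; ring
  · simp; ring

lemma sub_mid (a b : ℝ × ℝ) : mid a b - a = (1 / 2 : ℝ) • (b - a) := by
  unfold mid
  ext
  · simp; ring
  · simp; ring

/-- The steps are positive multiples of the side vectors. -/
lemma step (h : RectPoly s p) (x0 : ι) {i : ℕ} (hi : i ≤ Fintype.card ι) :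
    ∃ c : ℝ, 0 < c ∧ PP s p x0 (i + 1) - PP s p x0 i = c • sv s p ((s ^ i) x0) := by
  have h2 := two_le_card h x0
  by_cases h0 : i = 0
  · subst h0
    refine ⟨1 / 2, by norm_num, ?_⟩
    rw [PP_zero, PP_mid x0 (by omega) (by omega), zero_add, pow_one, mid_sub]
    rfl
  · by_cases hN : i = Fintype.card ι
    · subst hN
      refine ⟨1 / 2, by norm_num, ?_⟩
      rw [PP_last, PP_mid x0 (by omega) (by omega), pow_card h, sub_mid]
      rfl
    · refine ⟨1, one_pos, ?_⟩
      rw [PP_mid x0 (by omega) (by omega), PP_mid x0 (by omega) (by omega), one_smul,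
        pow_succ_apply]
      rfl

lemma seg_ax (h : RectPoly s p) (x0 : ι) {i : ℕ} (hi : i ≤ Fintype.card ι) :
    (PP s p x0 i).1 = (PP s p x0 (i + 1)).1 ∨ (PP s p x0 i).2 = (PP s p x0 (i + 1)).2 := by
  obtain ⟨c, hc, hs⟩ := step h x0 hi
  have h1 := (cons_sv h ((s ^ i) x0)).1
  have h3 := congrArg Prod.fst hs
  have h4 := congrArg Prod.snd hs
  simp only [Prod.fst_sub, Prod.snd_sub, Prod.smul_fst, Prod.smul_snd, smul_eq_mul] at h3 h4
  rcases h1 with h1 | h1
  · left
    rw [h1, mul_zero] at h3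
    linarith
  · right
    rw [h1, mul_zero] at h4
    linarith

lemma seg_side (h : RectPoly s p) (x0 : ι) {i : ℕ} (hi : i ≤ Fintype.card ι) {z : ℝ × ℝ}
    (hz : z ∈ segment ℝ (PP s p x0 i) (PP s p x0 (i + 1))) :
    z ∈ segment ℝ (p ((s ^ i) x0)) (p (s ((s ^ i) x0))) ∧ (i = 0 → z ≠ p x0) ∧
      (i = Fintype.card ι → z ≠ p (s x0)) := by
  have h2 := two_le_card h x0
  by_cases h0 : i = 0
  · subst h0
    rw [PP_zero, PP_mid x0 (by omega) (by omega), zero_add, pow_one] at hz
    have := seg_midr (h.ax x0) (h.ne x0) hz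
    exact ⟨by simpa using this.1, fun _ => this.2, fun h => by omega⟩
  · by_cases hN : i = Fintype.card ι
    · subst hN
      rw [PP_last, PP_mid x0 (by omega) (by omega), pow_card h] at hz
      have := seg_midl (h.ax x0) (h.ne x0) hz
      rw [pow_card h]
      exact ⟨this.1, fun h => by omega, fun _ => this.2⟩
    · rw [PP_mid x0 (by omega) (by omega), PP_mid x0 (by omega) (by omega), pow_succ_apply] at hz
      exact ⟨hz, fun h => absurd h h0, fun h => absurd h hN⟩

lemma disjP (h : RectPoly s p) (x0 : ι) {i j : ℕ} (hij : i + 2 ≤ j) (hj : j ≤ Fintype.card ι)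
    (hc : ¬ (i = 0 ∧ j = Fintype.card ι)) (z : ℝ × ℝ)
    (hz : z ∈ segment ℝ (PP s p x0 i) (PP s p x0 (i + 1))) :
    z ∉ segment ℝ (PP s p x0 j) (PP s p x0 (j + 1)) := by
  intro hz'
  set N := Fintype.card ι with hN
  obtain ⟨h1, h2, h3⟩ := seg_side h x0 (by omega) hz
  obtain ⟨h1', h2', h3'⟩ := seg_side h x0 hj hz'
  have hne1 : (s ^ j) x0 ≠ (s ^ i) x0 := by
    rw [Ne, pow_eq_iff h x0]
    intro hmod
    have := (Nat.modEq_iff_dvd' (by omega)).mp hmod.symm
    have := Nat.le_of_dvd (by omega) this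
    omega
  have hne2 : (s ^ j) x0 ≠ s ((s ^ i) x0) := by
    rw [← pow_succ_apply, Ne, pow_eq_iff h x0]
    intro hmod
    have := (Nat.modEq_iff_dvd' (by omega)).mp hmod.symm
    have := Nat.le_of_dvd (by omega) this
    omega
  by_cases hne3 : (s ^ i) x0 = s ((s ^ j) x0)
  · have hmod := hne3
    rw [← pow_succ_apply, pow_eq_iff h x0] at hmod
    have hdvd := (Nat.modEq_iff_dvd' (by omega)).mp hmod
    have hle := Nat.le_of_dvd (by omega) hdvd
    have heq : j + 1 - i = N := by
      obtain ⟨k, hk⟩ := hdvd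
      rw [← hN] at hk hle
      have : k = 1 := by
        have hk1 : k < 2 := by
          by_contra hk2
          push Not at hk2
          have : N * 2 ≤ N * k := Nat.mul_le_mul_left N hk2
          have h2N := two_le_card h x0
          omega
        have hk0 : k ≠ 0 := by
          rintro rfl
          omega
        omega
      rw [hk, this, mul_one]
    -- `z` is the common corner
    have hzc : z = p (s ((s ^ j) x0)) := by
      apply h.adj _ z h1'
      rw [← hne3]
      exact h1
    rcases (by omega : i = 0 ∨ j = N) with hi0 | hjN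
    · apply h2 hi0
      rw [hzc, ← hne3, hi0]
      simp
    · apply h3' hjN
      rw [hzc, hjN, pow_card h]
  · exact Set.disjoint_left.mp (h.disj _ _ hne1 hne2 hne3) h1 h1'

/-- The index sum around the midpoint of a side. -/
noncomputable def SS (s : Equiv.Perm ι) (p : ι → ℝ × ℝ) (x0 : ι) : ℤ :=
  ∑ j ∈ Finset.Ico 1 (Fintype.card ι), del (PP s p x0 j - mid (p x0) (p (s x0)))
    (PP s p x0 (j + 1) - mid (p x0) (p (s x0)))

lemma sub_ne (h : RectPoly s p) (x0 : ι) {i : ℕ} (h1 : 1 ≤ i) (h2 : i ≤ Fintype.card ι) :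
    PP s p x0 i - mid (p x0) (p (s x0)) ≠ 0 := by
  rw [sub_ne_zero]
  by_cases hi1 : i = 1
  · subst hi1
    obtain ⟨c, hc, hs⟩ := step h x0 (i := 0) (by omega)
    rw [PP_zero, zero_add] at hs
    rw [← sub_ne_zero, hs]
    exact smul_ne_zero hc.ne' (cons_sv h _).2.2.1
  · by_cases hiN : i = Fintype.card ι
    · obtain ⟨c, hc, hs⟩ := step h x0 (i := Fintype.card ι) le_rfl
      rw [PP_last] at hs
      rw [hiN]
      intro heq
      rw [heq, sub_self] at hs
      exact smul_ne_zero hc.ne' (cons_sv h _).2.2.1 hs.symm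
    · intro heq
      apply disjP h x0 (i := 0) (j := i) (by omega) h2 (by omega) (mid (p x0) (p (s x0)))
      · rw [PP_zero]
        exact left_mem_segment ℝ _ _
      · rw [← heq]
        exact left_mem_segment ℝ _ _

lemma sum_orbit (h : RectPoly s p) (x0 : ι) {M : Type*} [AddCommMonoid M] (g : ι → M) :
    ∑ x, g x = ∑ i ∈ Finset.range (Fintype.card ι), g ((s ^ i) x0) := by
  classical
  rw [← Fin.sum_univ_eq_sum_range (fun i => g ((s ^ i) x0))]
  symm
  refine Function.Bijective.sum_comp (g := g) (e := fun i : Fin (Fintype.card ι) => (s ^ (i : ℕ)) x0) ?_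
  rw [Fintype.bijective_iff_injective_and_card]
  refine ⟨?_, by simp⟩
  intro a b hab
  simp only at hab
  rw [pow_eq_iff h x0] at hab
  exact Fin.ext (Nat.ModEq.eq_of_lt_of_lt hab a.2 b.2)

theorem totalTurn_eq_SS (h : RectPoly s p) (x0 : ι) : totalTurn s p = SS s p x0 := by
  have h2N := two_le_card h x0
  set P := PP s p x0 with hP
  set N := Fintype.card ι with hN
  have key := grid N h2N (fun i j => del (P j - P i) (P (j + 1) - P i))
    (fun i j => del (P j - P i) (P j - P (i + 1)))
    (fun i => turn (P (i + 1) - P i) (P (i + 2) - P (i + 1))) ?_ ?_ ?_ ?_ ?_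
  · have h1 : SS s p x0 = ∑ j ∈ Finset.Ico 1 N, del (P j - P 0) (P (j + 1) - P 0) := by
      unfold SS
      rw [hP, PP_zero]
    rw [h1, key]
    unfold totalTurn
    rw [sum_orbit h x0]
    refine Finset.sum_congr rfl ?_
    intro i hi
    rw [Finset.mem_range] at hi
    obtain ⟨c, hc, hs⟩ := step h x0 (i := i) (by omega)
    obtain ⟨c', hc', hs'⟩ := step h x0 (i := i + 1) (by omega)
    rw [← hP] at hs hs'
    rw [hs, show i + 2 = i + 1 + 1 from rfl, hs', turn_smul hc hc']
    unfold sv
    rw [pow_succ_apply]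
  · intro i j hij hj hc
    exact cell (sep (seg_ax h x0 (by omega)) (seg_ax h x0 (by omega))
      (fun z hz => disjP h x0 hij hj hc z hz))
  · intro i hi
    obtain ⟨c, hc, hs⟩ := step h x0 (i := i) (by omega)
    obtain ⟨c', hc', hs'⟩ := step h x0 (i := i + 1) (by omega)
    rw [← hP] at hs hs'
    have hcons : Cons (P (i + 1) - P i) (P (i + 2) - P (i + 1)) := by
      rw [hs, show i + 2 = i + 1 + 1 from rfl, hs']
      have := cons_sv h ((s ^ i) x0)
      rw [← pow_succ_apply] at this
      exact cons_smul hc hc' this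
    have := tri hcons
    have h3 : P (i + 1) - P i + (P (i + 2) - P (i + 1)) = P (i + 2) - P i := by abel
    rw [h3] at this
    exact this
  · apply del_same
    rw [hP, PP_zero, PP_mid x0 (by omega) (by omega), PP_mid x0 (by omega) (by omega), pow_card h]
    have h3 : p x0 - mid (p x0) (p (s x0)) = (1 / 2 : ℝ) • (p x0 - p (s x0)) := by
      rw [mid_comm, mid_sub]
    rw [h3, sg_smul (by norm_num)]
    simp
  · apply del_same
    rw [hP, PP_last, PP_mid x0 (by omega) (by omega), PP_mid x0 (by omega) (by omega), pow_card h]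
    have h3 : mid (p x0) (p (s x0)) - p (s x0) = (1 / 2 : ℝ) • (p x0 - p (s x0)) := by
      rw [mid_comm, sub_mid]
    simp only [pow_one]
    rw [h3, sg_smul (by norm_num)]
  · intro i h1 h2
    have h3 : P (N + 1) - P i = -(P i - P 0) := by
      rw [hP, PP_zero, hN, PP_last]; abel
    have h4 : P (N + 1) - P (i + 1) = -(P (i + 1) - P 0) := by
      rw [hP, PP_zero, hN, PP_last]; abel
    rw [h3, h4]
    apply del_neg
    · rw [hP, PP_zero]
      exact sub_ne h x0 h1 (by omega)
    · rw [hP, PP_zero]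
      exact sub_ne h x0 (by omega) (by omega)

end Pool.Agent.N46
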