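import Pool.Agent.N46.Turn3

/-!
# The rotation theorem for simple axis-parallel polygons
-/

set_option autoImplicit false

namespace Pool.Agent.N46

open Pool.Agent.N371.UB
open scoped Topology

variable {ι : Type} [Fintype ι] {s : Equiv.Perm ι} {p : ι → ℝ × ℝ}

lemma mid_ne_left {a b : ℝ × ℝ} (hne : a ≠ b) : mid a b ≠ a := by
  intro h
  have h1 := sub_mid a b
  rw [h, sub_self] at h1
  exact smul_ne_zero (by norm_num) (sub_ne_zero.mpr hne.symm) h1.symm

lemma mid_ne_right {a b : ℝ × ℝ} (hne : a ≠ b) : mid a b ≠ b := by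
  rw [mid_comm]
  exact mid_ne_left hne.symm

lemma mid_mem {a b : ℝ × ℝ} (h : a.1 = b.1 ∨ a.2 = b.2) : mid a b ∈ segment ℝ a b := by
  rw [mem_seg h]
  unfold mid
  simp only
  refine ⟨⟨?_, ?_⟩, ?_, ?_⟩
  · rcases le_total a.1 b.1 with hab | hab
    · rw [min_eq_left hab]; linarith
    · rw [min_eq_right hab]; linarith
  · rcases le_total a.1 b.1 with hab | hab
    · rw [max_eq_right hab]; linarith
    · rw [max_eq_left hab]; linarith
  · rcases le_total a.2 b.2 with hab | hab
    · rw [min_eq_left hab]; linarith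
    · rw [min_eq_right hab]; linarith
  · rcases le_total a.2 b.2 with hab | hab
    · rw [max_eq_right hab]; linarith
    · rw [max_eq_left hab]; linarith

/-- The midpoint of a side is on no other side. -/
lemma mid_notMem (h : RectPoly s p) (x0 y : ι) (hy : y ≠ x0) :
    mid (p x0) (p (s x0)) ∉ segment ℝ (p y) (p (s y)) := by
  intro hq
  have hq0 := mid_mem (h.ax x0)
  by_cases h1 : y = s x0
  · subst h1
    exact mid_ne_right (h.ne x0) (h.adj x0 _ hq0 hq)
  · by_cases h2 : x0 = s y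
    · have h3 : mid (p x0) (p (s x0)) = p (s y) := by
        apply h.adj y _ hq
        rw [← h2]
        exact hq0
      rw [← h2] at h3
      exact mid_ne_left (h.ne x0) h3
    · exact Set.disjoint_left.mp (h.disj x0 y hy h1 h2) hq0 hq

lemma mid_notMem_PP (h : RectPoly s p) (x0 : ι) {j : ℕ} (h1 : 1 ≤ j) (h2 : j < Fintype.card ι) :
    mid (p x0) (p (s x0)) ∉ segment ℝ (PP s p x0 j) (PP s p x0 (j + 1)) := by
  rw [PP_mid x0 (by omega) (by omega), PP_mid x0 (by omega) (by omega), pow_succ_apply]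
  apply mid_notMem h
  intro hc
  have h3 : (s ^ j) x0 = (s ^ 0) x0 := by simpa using hc
  rw [pow_eq_iff h x0] at h3
  have := (Nat.modEq_iff_dvd' (by omega)).mp h3.symm
  have := Nat.le_of_dvd (by omega) this
  omega

/-! ### The topmost side -/

/-- lift of the directions in the closed lower half plane -/
def lo : SP → ℤ
  | (.neg, .zero) => 4
  | (.neg, .neg) => 5
  | (.zero, .neg) => 6
  | (.pos, .neg) => 7
  | (.pos, .zero) => 8
  | _ => 0

lemma dd_lo : ∀ a b : SP, a.2 ≠ 1 → b.2 ≠ 1 → a ≠ (0, 0) → b ≠ (0, 0) →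
    ¬ (a = (1, 0) ∧ b = (-1, 0)) → ¬ (a = (-1, 0) ∧ b = (1, 0)) → dd a b = lo b - lo a := by
  decide

lemma sg_ne {u : ℝ × ℝ} (h : u ≠ 0) : sg u ≠ (0, 0) := by
  intro h1
  apply h
  unfold sg at h1
  rw [Prod.mk.injEq, sign_eq_zero_iff, sign_eq_zero_iff] at h1
  exact Prod.ext h1.1 h1.2

lemma sum_tel (f : ℕ → ℤ) {N : ℕ} (hN : 1 ≤ N) :
    ∑ j ∈ Finset.Ico 1 N, (f (j + 1) - f j) = f N - f 1 := by
  induction N, hN using Nat.le_induction with
  | base => simp
  | succ n hn ih =>
    rw [Finset.sum_Ico_succ_top hn, ih]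
    ring

lemma exists_top (h : RectPoly s p) [Nonempty ι] :
    ∃ x0, (p x0).2 = (p (s x0)).2 ∧ ∀ y, (p y).2 ≤ (p x0).2 := by
  obtain ⟨y, hy⟩ := Finite.exists_max (fun y => (p y).2)
  by_cases h1 : (p y).2 = (p (s y)).2
  · exact ⟨y, h1, hy⟩
  · set w := s.symm y with hw
    have hsw : s w = y := by rw [hw, Equiv.apply_symm_apply]
    by_cases h2 : (p w).2 = (p y).2
    · refine ⟨w, ?_, ?_⟩
      · rw [hsw]; exact h2
      · intro z
        rw [h2]
        exact hy z
    · exfalso
      have h3 := (cons_sv h w).2.2.2.2.2.2.1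
      rw [hsw] at h3
      apply h3
      unfold sv
      rw [hsw]
      simp only [Prod.snd_sub, sub_pos, sub_neg]
      exact ⟨lt_of_le_of_ne (hy w) h2, lt_of_le_of_ne (hy (s y)) (Ne.symm h1)⟩

lemma SS_top (h : RectPoly s p) (x0 : ι) (h0 : (p x0).2 = (p (s x0)).2)
    (htop : ∀ y, (p y).2 ≤ (p x0).2) : SS s p x0 = 4 ∨ SS s p x0 = -4 := by
  have h2N := two_le_card h x0
  set N := Fintype.card ι with hN
  set q := mid (p x0) (p (s x0)) with hq
  have hq2 : q.2 = (p x0).2 := by
    rw [hq]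
    unfold mid
    simp only
    linarith
  have hsecond : ∀ j, 1 ≤ j → j ≤ N → (sg (PP s p x0 j - q)).2 ≠ 1 := by
    intro j h1 h2 hc
    unfold sg at hc
    simp only [Prod.snd_sub] at hc
    rw [sign_eq_one_iff, sub_pos, PP_mid x0 h1 h2, hq2] at hc
    exact absurd (htop _) (not_le.mpr hc)
  have hS : SS s p x0 = ∑ j ∈ Finset.Ico 1 N,
      (lo (sg (PP s p x0 (j + 1) - q)) - lo (sg (PP s p x0 j - q))) := by
    unfold SS
    refine Finset.sum_congr rfl ?_
    intro j hj
    rw [Finset.mem_Ico] at hj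
    unfold del
    have hax := seg_ax h x0 (i := j) (by omega)
    have hnm := mid_notMem_PP h x0 hj.1 hj.2
    rw [← hq, mem_seg hax] at hnm
    refine dd_lo _ _ (hsecond j hj.1 (by omega)) (hsecond (j + 1) (by omega) (by omega))
      (sg_ne (sub_ne h x0 hj.1 (by omega))) (sg_ne (sub_ne h x0 (by omega) (by omega))) ?_ ?_
    · rintro ⟨ha, hb⟩
      unfold sg at ha hb
      simp only [Prod.mk.injEq, Prod.fst_sub, Prod.snd_sub, sign_eq_one_iff, sign_eq_zero_iff,
        sign_eq_neg_one_iff, sub_pos, sub_neg, sub_eq_zero] at ha hb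
      apply hnm
      refine ⟨⟨min_le_iff.mpr (Or.inr hb.1.le), le_max_iff.mpr (Or.inl ha.1.le)⟩,
        min_le_iff.mpr (Or.inl ha.2.le), le_max_iff.mpr (Or.inl ha.2.ge)⟩
    · rintro ⟨ha, hb⟩
      unfold sg at ha hb
      simp only [Prod.mk.injEq, Prod.fst_sub, Prod.snd_sub, sign_eq_one_iff, sign_eq_zero_iff,
        sign_eq_neg_one_iff, sub_pos, sub_neg, sub_eq_zero] at ha hb
      apply hnm
      refine ⟨⟨min_le_iff.mpr (Or.inl ha.1.le), le_max_iff.mpr (Or.inr hb.1.le)⟩,
        min_le_iff.mpr (Or.inl ha.2.le), le_max_iff.mpr (Or.inl ha.2.ge)⟩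
  rw [hS, sum_tel (fun j => lo (sg (PP s p x0 j - q))) (by omega)]
  have h1 : sg (PP s p x0 1 - q) = sg (p (s x0) - p x0) := by
    rw [PP_mid x0 le_rfl (by omega), pow_one, hq, mid_sub, sg_smul (by norm_num)]
  have h2 : sg (PP s p x0 N - q) = sg (p x0 - p (s x0)) := by
    rw [PP_mid x0 (by omega) le_rfl, pow_card h, hq, mid_comm, mid_sub, sg_smul (by norm_num)]
  have h3 : (p x0).1 ≠ (p (s x0)).1 := by
    intro hc
    exact h.ne x0 (Prod.ext hc h0)
  rw [h1, h2]
  unfold sg
  simp only [Prod.fst_sub, Prod.snd_sub]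
  rw [h0, sub_self, sign_zero]
  rcases lt_or_gt_of_ne h3 with h3 | h3
  · right
    rw [sign_pos (sub_pos.mpr h3), sign_neg (sub_neg.mpr h3)]
    rfl
  · left
    rw [sign_neg (sub_neg.mpr h3), sign_pos (sub_pos.mpr h3)]
    rfl

/-- The rotation theorem. -/
theorem totalTurn_eq (h : RectPoly s p) [Nonempty ι] :
    totalTurn s p = 4 ∨ totalTurn s p = -4 := by
  obtain ⟨x0, h0, htop⟩ := exists_top h
  rw [totalTurn_eq_SS h x0]
  exact SS_top h x0 h0 htop

/-! ### The winding number -/

/-- the winding sum -/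
noncomputable def WW (s : Equiv.Perm ι) (p : ι → ℝ × ℝ) (z : ℝ × ℝ) : ℤ :=
  ∑ x, del (p x - z) (p (s x) - z)

lemma ev_same {a a' z : ℝ × ℝ} (ha : a.1 = a'.1 ∨ a.2 = a'.2) (h : z ∉ segment ℝ a a') :
    ∀ᶠ z' in 𝓝 z, Same (a - z) (a' - z) (a - z') (a' - z') := by
  have c1 : ∀ b : ℝ × ℝ, ContinuousAt (fun z' : ℝ × ℝ => (b - z').1) z := fun b => by fun_prop
  have c2 : ∀ b : ℝ × ℝ, ContinuousAt (fun z' : ℝ × ℝ => (b - z').2) z := fun b => by fun_prop
  rcases sep_pt ha h with ⟨h1, h2⟩ | ⟨h1, h2⟩ | ⟨h1, h2⟩ | ⟨h1, h2⟩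
  · filter_upwards [(c1 a).eventually_const_lt h1, (c1 a').eventually_const_lt h2] with z' h3 h4
    exact Or.inl ⟨h1, h2, h3, h4⟩
  · filter_upwards [(c1 a).eventually_lt_const h1, (c1 a').eventually_lt_const h2] with z' h3 h4
    exact Or.inr (Or.inl ⟨h1, h2, h3, h4⟩)
  · filter_upwards [(c2 a).eventually_const_lt h1, (c2 a').eventually_const_lt h2] with z' h3 h4
    exact Or.inr (Or.inr (Or.inl ⟨h1, h2, h3, h4⟩))
  · filter_upwards [(c2 a).eventually_lt_const h1, (c2 a').eventually_lt_const h2] with z' h3 h4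
    exact Or.inr (Or.inr (Or.inr ⟨h1, h2, h3, h4⟩))

lemma WW_loc (h : RectPoly s p) {z : ℝ × ℝ} (hz : z ∉ polySet s p) :
    ∀ᶠ z' in 𝓝 z, WW s p z' = WW s p z := by
  have h1 : ∀ᶠ z' in 𝓝 z, ∀ y, Same (p y - z) (p (s y) - z) (p y - z') (p (s y) - z') := by
    rw [Filter.eventually_all]
    intro y
    apply ev_same (h.ax y)
    intro hc
    exact hz (Set.mem_iUnion.mpr ⟨y, hc⟩)
  filter_upwards [h1] with z' h2
  have h3 : ∑ y, (del (p y - z) (p (s y) - z) + del (p (s y) - z) (p (s y) - z'))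
      = ∑ y, (del (p y - z) (p y - z') + del (p y - z') (p (s y) - z')) :=
    Finset.sum_congr rfl (fun y _ => cell (h2 y))
  rw [Finset.sum_add_distrib, Finset.sum_add_distrib,
    Equiv.sum_comp s (fun y => del (p y - z) (p y - z'))] at h3
  unfold WW
  linarith

lemma WW_half {z : ℝ × ℝ} (h : (∀ y, 0 < (p y - z).1) ∨ (∀ y, (p y - z).1 < 0) ∨
    (∀ y, 0 < (p y - z).2) ∨ (∀ y, (p y - z).2 < 0)) : WW s p z = 0 := by
  unfold WW del sg
  rcases h with h | h | h | h
  · have h1 : ∀ y, dd (SignType.sign (p y - z).1, SignType.sign (p y - z).2)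
        (SignType.sign (p (s y) - z).1, SignType.sign (p (s y) - z).2)
        = lR (SignType.sign (p (s y) - z).2) - lR (SignType.sign (p y - z).2) := by
      intro y
      rw [sign_pos (h y), sign_pos (h (s y)), dd_right]
    rw [Finset.sum_congr rfl (fun y _ => h1 y), Finset.sum_sub_distrib,
      Equiv.sum_comp s (fun y => lR (SignType.sign (p y - z).2)), sub_self]
  · have h1 : ∀ y, dd (SignType.sign (p y - z).1, SignType.sign (p y - z).2)
        (SignType.sign (p (s y) - z).1, SignType.sign (p (s y) - z).2)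
        = lR (SignType.sign (p y - z).2) - lR (SignType.sign (p (s y) - z).2) := by
      intro y
      rw [sign_neg (h y), sign_neg (h (s y)), dd_left]
    rw [Finset.sum_congr rfl (fun y _ => h1 y), Finset.sum_sub_distrib,
      Equiv.sum_comp s (fun y => lR (SignType.sign (p y - z).2)), sub_self]
  · have h1 : ∀ y, dd (SignType.sign (p y - z).1, SignType.sign (p y - z).2)
        (SignType.sign (p (s y) - z).1, SignType.sign (p (s y) - z).2)
        = lR (SignType.sign (p y - z).1) - lR (SignType.sign (p (s y) - z).1) := by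
      intro y
      rw [sign_pos (h y), sign_pos (h (s y)), dd_up]
    rw [Finset.sum_congr rfl (fun y _ => h1 y), Finset.sum_sub_distrib,
      Equiv.sum_comp s (fun y => lR (SignType.sign (p y - z).1)), sub_self]
  · have h1 : ∀ y, dd (SignType.sign (p y - z).1, SignType.sign (p y - z).2)
        (SignType.sign (p (s y) - z).1, SignType.sign (p (s y) - z).2)
        = lR (SignType.sign (p (s y) - z).1) - lR (SignType.sign (p y - z).1) := by
      intro y
      rw [sign_neg (h y), sign_neg (h (s y)), dd_down]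
    rw [Finset.sum_congr rfl (fun y _ => h1 y), Finset.sum_sub_distrib,
      Equiv.sum_comp s (fun y => lR (SignType.sign (p y - z).1)), sub_self]

lemma WW_unbounded (h : RectPoly s p) {z : ℝ × ℝ}
    (hz : ¬ Bornology.IsBounded (connectedComponentIn (polySet s p)ᶜ z)) : WW s p z = 0 := by
  set C := connectedComponentIn (polySet s p)ᶜ z with hC
  have hzC : z ∈ (polySet s p)ᶜ := by
    by_contra hc
    apply hz
    rw [hC, connectedComponentIn_eq_empty hc]
    exact Bornology.isBounded_empty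
  have hzmem : z ∈ C := mem_connectedComponentIn hzC
  have hbd : Bornology.IsBounded (Set.range p) := (Set.finite_range p).isBounded
  obtain ⟨R, hR⟩ := isBounded_iff_forall_norm_le.mp hbd
  have hex : ∃ z1 ∈ C, R < ‖z1‖ := by
    by_contra hc
    push Not at hc
    exact hz (isBounded_iff_forall_norm_le.mpr ⟨R, hc⟩)
  obtain ⟨z1, hz1C, hz1⟩ := hex
  have hcont : ContinuousOn (WW s p) C := by
    intro w hw
    have hw' : w ∉ polySet s p := connectedComponentIn_subset _ _ hw
    have : ContinuousAt (WW s p) w := by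
      have h1 := WW_loc h hw'
      exact (continuousAt_const (y := WW s p w)).congr (h1.mono (fun _ hx => hx.symm))
    exact this.continuousWithinAt
  have heq : WW s p z = WW s p z1 :=
    isPreconnected_connectedComponentIn.constant hcont hzmem hz1C
  rw [heq]
  apply WW_half
  have hp : ∀ y, |(p y).1| ≤ R ∧ |(p y).2| ≤ R := by
    intro y
    have h1 := hR (p y) (Set.mem_range_self y)
    rw [Prod.norm_def, max_le_iff, Real.norm_eq_abs, Real.norm_eq_abs] at h1
    exact h1
  rw [Prod.norm_def, lt_max_iff, Real.norm_eq_abs, Real.norm_eq_abs, lt_abs, lt_abs] at hz1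
  simp only [Prod.fst_sub, Prod.snd_sub, sub_pos, sub_neg]
  rcases hz1 with (h1 | h1) | (h1 | h1)
  · right; left
    intro y
    exact lt_of_le_of_lt ((le_abs_self _).trans (hp y).1) h1
  · left
    intro y
    have := (neg_le_abs _).trans (hp y).1
    linarith
  · right; right; right
    intro y
    exact lt_of_le_of_lt ((le_abs_self _).trans (hp y).2) h1
  · right; right; left
    intro y
    have := (neg_le_abs _).trans (hp y).2
    linarith

lemma midpoint_eq_mid (a b : ℝ × ℝ) : midpoint ℝ a b = mid a b := by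
  rw [midpoint_eq_smul_add]
  unfold mid
  ext
  · simp; ring
  · simp; ring

lemma local_values {u : ℝ × ℝ} (hu : u.1 = 0 ∨ u.2 = 0) (hu0 : u ≠ 0) {t : ℝ} (ht : 0 < t) :
    del (-((1 / 2 : ℝ) • u)) (-((1 / 2 : ℝ) • u) - t • leftN u) = 1 ∧
    del ((1 / 2 : ℝ) • u) ((1 / 2 : ℝ) • u - t • leftN u) = -1 ∧
    del (-((1 / 2 : ℝ) • u) - t • leftN u) ((1 / 2 : ℝ) • u - t • leftN u) = 2 := by
  obtain ⟨u1, u2⟩ := u
  have hu0' : u1 ≠ 0 ∨ u2 ≠ 0 := by
    by_contra hc
    push Not at hc
    exact hu0 (Prod.ext hc.1 hc.2)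
  simp only at hu
  unfold del sg leftN
  rcases hu with hu | hu <;> subst hu <;>
    simp only [Prod.smul_mk, smul_eq_mul, mul_zero, Prod.neg_mk, neg_zero, Prod.mk_sub_mk,
      zero_sub, sub_zero, sign_zero, mul_neg, neg_neg]
  · have hu2 : u2 ≠ 0 := by simpa using hu0'
    rcases lt_or_gt_of_ne hu2 with hu | hu
    · have e1 : SignType.sign (-(1 / 2 * u2)) = 1 := sign_pos (by linarith)
      have e2 : SignType.sign (1 / 2 * u2) = -1 := sign_neg (by linarith)
      have e3 : SignType.sign (t * u2) = -1 := sign_neg (by nlinarith)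
      rw [e1, e2, e3]
      decide
    · have e1 : SignType.sign (-(1 / 2 * u2)) = -1 := sign_neg (by linarith)
      have e2 : SignType.sign (1 / 2 * u2) = 1 := sign_pos (by linarith)
      have e3 : SignType.sign (t * u2) = 1 := sign_pos (by positivity)
      rw [e1, e2, e3]
      decide
  · have hu1 : u1 ≠ 0 := by simpa using hu0'
    rcases lt_or_gt_of_ne hu1 with hu | hu
    · have e1 : SignType.sign (-(1 / 2 * u1)) = 1 := sign_pos (by linarith)
      have e2 : SignType.sign (1 / 2 * u1) = -1 := sign_neg (by linarith)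
      have e3 : SignType.sign (-(t * u1)) = 1 := sign_pos (by nlinarith)
      rw [e1, e2, e3]
      decide
    · have e1 : SignType.sign (-(1 / 2 * u1)) = -1 := sign_neg (by linarith)
      have e2 : SignType.sign (1 / 2 * u1) = 1 := sign_pos (by linarith)
      have e3 : SignType.sign (-(t * u1)) = -1 := sign_neg (by nlinarith)
      rw [e1, e2, e3]
      decide

lemma WW_near (h : RectPoly s p) (x : ι) : ∃ ε > 0, ∀ t : ℝ, 0 < t → t < ε →
    WW s p (mid (p x) (p (s x)) + t • leftN (p (s x) - p x)) = SS s p x + 4 := by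
  have h2N := two_le_card h x
  set N := Fintype.card ι with hN
  set q := mid (p x) (p (s x)) with hq
  set u := p (s x) - p x with hu
  have h1 : ∀ᶠ z in 𝓝 q, ∀ j ∈ Finset.Ico 1 N, Same (PP s p x j - q) (PP s p x (j + 1) - q)
      (PP s p x j - z) (PP s p x (j + 1) - z) := by
    rw [Filter.eventually_all_finset]
    intro j hj
    rw [Finset.mem_Ico] at hj
    exact ev_same (seg_ax h x (by omega)) (mid_notMem_PP h x hj.1 hj.2)
  have hcont : Filter.Tendsto (fun t : ℝ => q + t • leftN u) (𝓝 0) (𝓝 q) := by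
    have : ContinuousAt (fun t : ℝ => q + t • leftN u) 0 := by fun_prop
    have h3 := this.tendsto
    simpa using h3
  obtain ⟨ε, hε, h2⟩ := Metric.eventually_nhds_iff.mp (hcont.eventually h1)
  refine ⟨ε, hε, ?_⟩
  intro t ht htε
  have h3 := h2 (y := t) (by rw [Real.dist_eq, sub_zero, abs_of_pos ht]; exact htε)
  set z := q + t • leftN u with hz
  have h4 : ∑ j ∈ Finset.Ico 1 N, (del (PP s p x j - q) (PP s p x (j + 1) - q)
        + del (PP s p x (j + 1) - q) (PP s p x (j + 1) - z))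
      = ∑ j ∈ Finset.Ico 1 N, (del (PP s p x j - q) (PP s p x j - z)
        + del (PP s p x j - z) (PP s p x (j + 1) - z)) :=
    Finset.sum_congr rfl (fun j hj => cell (h3 j hj))
  have h5 := sum_tel (fun j => del (PP s p x j - q) (PP s p x j - z)) (N := N) (by omega)
  rw [Finset.sum_sub_distrib] at h5
  rw [Finset.sum_add_distrib, Finset.sum_add_distrib] at h4
  have h6 : SS s p x = ∑ j ∈ Finset.Ico 1 N, del (PP s p x j - q) (PP s p x (j + 1) - q) := rfl
  have h7 : WW s p z = del (p x - z) (p (s x) - z)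
      + ∑ j ∈ Finset.Ico 1 N, del (PP s p x j - z) (PP s p x (j + 1) - z) := by
    unfold WW
    rw [sum_orbit h x, Finset.range_eq_Ico, Finset.sum_eq_sum_Ico_succ_bot (by omega)]
    congr 1
    · refine Finset.sum_congr rfl ?_
      intro j hj
      rw [Finset.mem_Ico] at hj
      rw [PP_mid x (by omega) (by omega), PP_mid x (by omega) (by omega), pow_succ_apply]
  have hcons := cons_sv h x
  obtain ⟨v1, v2, v3⟩ := local_values (u := u) hcons.1 hcons.2.2.1 ht
  have e1 : p x - q = -((1 / 2 : ℝ) • u) := by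
    rw [hq, ← neg_sub, sub_mid]
  have e2 : p (s x) - q = (1 / 2 : ℝ) • u := by
    rw [hq, mid_sub]
  have e3 : p x - z = -((1 / 2 : ℝ) • u) - t • leftN u := by
    rw [hz, ← e1]; abel
  have e4 : p (s x) - z = (1 / 2 : ℝ) • u - t • leftN u := by
    rw [hz, ← e2]; abel
  have hPN : PP s p x N = p x := by
    rw [PP_mid x (by omega) le_rfl, pow_card h]
  have hP1 : PP s p x 1 = p (s x) := by
    rw [PP_mid x le_rfl (by omega), pow_one]
  rw [hPN, hP1, e1, e2, e3, e4, v1, v2] at h5
  rw [e3, e4, v3] at h7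
  linarith

/-- The second theorem: the outer side on the left means total turning `-4`. -/
theorem totalTurn_outer (h : RectPoly s p) (x : ι)
    (hx : ∀ ε > 0, ∃ t : ℝ, 0 < t ∧ t < ε ∧ ¬ Bornology.IsBounded (connectedComponentIn
      (polySet s p)ᶜ (midpoint ℝ (p x) (p (s x)) + t • leftN (p (s x) - p x)))) :
    totalTurn s p = -4 := by
  obtain ⟨ε, hε, h1⟩ := WW_near h x
  obtain ⟨t, ht, htε, hub⟩ := hx ε hε
  rw [midpoint_eq_mid] at hub
  have h2 := WW_unbounded h hub
  rw [h1 t ht htε] at h2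
  rw [totalTurn_eq_SS h x]
  linarith

end Pool.Agent.N46
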